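import Mathlib

set_option autoImplicit false
open Set Filter Topology Function

namespace Pool.Agent.H.MP_15aca8

variable {K : Type} [TopologicalSpace K]

open Classical in
noncomputable def ind (W : Set K) : C(K, ℝ) :=
  if h : IsClopen W then ⟨W.indicator fun _ => 1, h.continuous_indicator continuous_const⟩ else 0

theorem ind_mem {W : Set K} (h : IsClopen W) {z : K} (hz : z ∈ W) : ind W z = 1 := by
  simp [ind, h, hz]

theorem ind_not {W : Set K} {z : K} (hz : z ∉ W) : ind W z = 0 := by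
  unfold ind
  split_ifs <;> simp [hz]

theorem ind_empty : ind (∅ : Set K) = 0 := by
  ext z
  exact ind_not (notMem_empty z)

theorem ind_union {A B : Set K} (hA : IsClopen A) (hB : IsClopen B) (h : Disjoint A B) :
    ind (A ∪ B) = ind A + ind B := by
  ext z
  rw [ContinuousMap.add_apply]
  by_cases a : z ∈ A
  · rw [ind_mem (hA.union hB) (Or.inl a), ind_mem hA a, ind_not (disjoint_left.1 h a), add_zero]
  · by_cases b : z ∈ B
    · rw [ind_mem (hA.union hB) (Or.inr b), ind_mem hB b, ind_not a, zero_add]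
    · rw [ind_not (W := A ∪ B) (by rintro (e | e) <;> contradiction), ind_not a, ind_not b,
        add_zero]

/-- `f` vanishes off `A`. -/
def Sp (A : Set K) (f : C(K, ℝ)) : Prop := ∀ z ∉ A, f z = 0

theorem Sp.add {A : Set K} {f g : C(K, ℝ)} (hf : Sp A f) (hg : Sp A g) : Sp A (f + g) :=
  fun z hz => by simp [hf z hz, hg z hz]

theorem Sp.sub {A : Set K} {f g : C(K, ℝ)} (hf : Sp A f) (hg : Sp A g) : Sp A (f - g) :=
  fun z hz => by simp [hf z hz, hg z hz]

theorem Sp.smul {A : Set K} {f : C(K, ℝ)} (hf : Sp A f) (c : ℝ) : Sp A (c • f) :=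
  fun z hz => by simp [hf z hz]

theorem Sp.mono {A B : Set K} {f : C(K, ℝ)} (hf : Sp A f) (h : A ⊆ B) : Sp B f :=
  fun z hz => hf z fun e => hz (h e)

theorem sp_ind {A W : Set K} (h : W ⊆ A) : Sp A (ind W) := fun _ hz => ind_not fun e => hz (h e)

variable [CompactSpace K]

theorem ind_norm (W : Set K) : ‖ind W‖ ≤ 1 := by
  refine (ContinuousMap.norm_le _ zero_le_one).2 fun z => ?_
  by_cases h : IsClopen W
  · by_cases a : z ∈ W
    · simp [ind_mem h a]
    · simp [ind_not a]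
  · simp [ind, h]

theorem smul_ind_norm (c : ℝ) (W : Set K) : ‖c • ind W‖ ≤ |c| := by
  rw [norm_smul, Real.norm_eq_abs]
  exact mul_le_of_le_one_right (abs_nonneg _) (ind_norm W)

theorem norm_sum_disj {ι : Type} (s : Finset ι) (A : ι → Set K) (f : ι → C(K, ℝ)) {R : ℝ}
    (hR : 0 ≤ R) (hd : Pairwise fun a b => Disjoint (A a) (A b)) (hs : ∀ a ∈ s, Sp (A a) (f a))
    (hn : ∀ a ∈ s, ‖f a‖ ≤ R) : ‖∑ a ∈ s, f a‖ ≤ R := by
  refine (ContinuousMap.norm_le _ hR).2 fun z => ?_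
  rw [ContinuousMap.sum_apply]
  by_cases h : ∃ a ∈ s, z ∈ A a
  · obtain ⟨a, ha, hz⟩ := h
    rw [Finset.sum_eq_single_of_mem a ha fun b hb e =>
      hs b hb z fun e' => disjoint_left.1 (hd e) e' hz]
    exact ((f a).norm_coe_le_norm z).trans (hn a ha)
  · push Not at h
    rw [Finset.sum_eq_zero fun a ha => hs a ha z (h a ha)]
    simpa using hR

theorem sem_sum_le {X ι : Type} [AddCommGroup X] [Module ℝ X] (p : Seminorm ℝ X) (s : Finset ι)
    (f : ι → X) : p (∑ a ∈ s, f a) ≤ ∑ a ∈ s, p (f a) := by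
  classical
  induction s using Finset.induction_on with
  | empty => simp
  | insert a s ha ih =>
    rw [Finset.sum_insert ha, Finset.sum_insert ha]
    exact (map_add_le_add p _ _).trans (by linarith)

theorem far_count {p : Seminorm ℝ C(K, ℝ)} {C : ℝ} (hp : ∀ x, p x ≤ C * ‖x‖) (hC : 0 ≤ C)
    (A : ℝ → Set K) (hd : Pairwise fun a b => Disjoint (A a) (A b)) (u : C(K, ℝ)) :
    {a | ∃ y, Sp (A a) y ∧ p (u + y) < p u}.Countable := by
  have key : ∀ N : ℕ, {a | ∃ y, Sp (A a) y ∧ ‖y‖ ≤ N ∧ p (u + y) < p u - 1 / (N + 1)}.Finite := by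
    intro N
    by_contra h
    obtain ⟨M, hM⟩ := exists_nat_gt (C * N * (N + 1))
    obtain ⟨s, hs, hc⟩ := Set.Infinite.exists_subset_card_eq h M
    have h' : ∀ a, ∃ y : C(K, ℝ), a ∈ s →
        Sp (A a) y ∧ ‖y‖ ≤ N ∧ p (u + y) < p u - 1 / (N + 1) := fun a => by
      by_cases e : a ∈ s
      · obtain ⟨y, hy⟩ := hs e
        exact ⟨y, fun _ => hy⟩
      · exact ⟨0, fun e' => absurd e' e⟩
    choose y hy using h'
    have a1 : ‖∑ a ∈ s, y a‖ ≤ N := norm_sum_disj s A y (Nat.cast_nonneg N) hd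
      (fun a ha => (hy a ha).1) fun a ha => (hy a ha).2.1
    have a2 : (M : ℝ) • u = ∑ a ∈ s, (u + y a) - ∑ a ∈ s, y a := by
      rw [Finset.sum_add_distrib, Finset.sum_const, hc, add_sub_cancel_right, Nat.cast_smul_eq_nsmul]
    have a3 : p ((M : ℝ) • u) = M * p u := by
      rw [map_smul_eq_mul, Real.norm_of_nonneg (Nat.cast_nonneg M)]
    have a4 : p (∑ a ∈ s, (u + y a)) ≤ M * (p u - 1 / (N + 1)) := by
      refine (sem_sum_le p s _).trans ?_
      have := Finset.sum_le_card_nsmul s (fun a => p (u + y a)) _ fun a ha => (hy a ha).2.2.le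
      rwa [hc, nsmul_eq_mul] at this
    have a5 := map_sub_le_add p (∑ a ∈ s, (u + y a)) (∑ a ∈ s, y a)
    have a6 := (hp _).trans (mul_le_mul_of_nonneg_left a1 hC)
    rw [← a2, a3] at a5
    have a7 : (M : ℝ) * (1 / (N + 1)) ≤ C * N := by nlinarith
    rw [mul_one_div, div_le_iff₀ (by positivity)] at a7
    linarith
  refine (countable_iUnion fun N => (key N).countable).mono ?_
  rintro a ⟨y, h1, h2⟩
  obtain ⟨N1, e1⟩ := exists_nat_ge ‖y‖
  obtain ⟨N2, e2⟩ := exists_nat_one_div_lt (sub_pos.2 h2)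
  refine mem_iUnion.2 ⟨max N1 N2, y, h1, e1.trans (by exact_mod_cast le_max_left _ _), ?_⟩
  have : (1 : ℝ) / ((max N1 N2 : ℕ) + 1) ≤ 1 / (N2 + 1) :=
    one_div_le_one_div_of_le (by positivity) (by exact_mod_cast Nat.succ_le_succ (le_max_right _ _))
  linarith

omit [CompactSpace K] in
theorem lim_seq {α : Type} (n : ℕ → ℕ) (s : ℕ → ℕ → α) (h1 : ∀ i, n i < n (i + 1))
    (h2 : ∀ i, ∀ k < n i, s (i + 1) k = s i k) : ∃ t : ℕ → α, ∀ i, ∀ k < n i, s i k = t k := by
  have hm : StrictMono n := strictMono_nat_of_lt_succ h1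
  have h3 : ∀ i i', i ≤ i' → ∀ k < n i, s i' k = s i k := fun i i' h k hk => by
    induction h with
    | refl => rfl
    | step h ih => rw [h2 _ k (hk.trans_le (hm.monotone h)), ih]
  refine ⟨fun k => s (k + 1) k, fun i k hk => ?_⟩
  have hk' : k < n (k + 1) := (Nat.lt_succ_self k).trans_le (hm.id_le _)
  rcases le_total i (k + 1) with e | e
  · exact (h3 _ _ e k hk).symm
  · exact h3 _ _ e k hk'

omit [CompactSpace K] in
theorem subgrad {X : Type} [AddCommGroup X] [Module ℝ X] (p : Seminorm ℝ X) (x h : X) {d : ℝ}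
    (hd : HasDerivAt (fun t : ℝ => p (x + t • h)) d 0) : p x + d ≤ p (x + h) := by
  have h1 := hd.tendsto_slope_zero_right
  have h2 : d ≤ p (x + h) - p x := by
    refine le_of_tendsto h1 ?_
    filter_upwards [Ioo_mem_nhdsGT (zero_lt_one' ℝ)] with t ht
    simp only [zero_add, zero_smul, add_zero, smul_eq_mul]
    have e : x + t • h = (1 - t) • x + t • (x + h) := by module
    have a := map_add_le_add p ((1 - t) • x) (t • (x + h))
    rw [← e, map_smul_eq_mul, map_smul_eq_mul, Real.norm_of_nonneg (sub_nonneg.2 ht.2.le),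
      Real.norm_of_nonneg ht.1.le] at a
    rw [inv_mul_le_iff₀ ht.1]
    linarith
  linarith

omit [CompactSpace K] in
theorem der_ge {f : ℝ → ℝ} {d b : ℝ} (hd : HasDerivAt f d 0)
    (h : ∀ l : ℕ, f 0 - (l : ℝ)⁻¹ * b ≤ f (l : ℝ)⁻¹) : -b ≤ d := by
  have h1 := hd.tendsto_slope_zero_right
  have h2 : Tendsto (fun l : ℕ => (l : ℝ)⁻¹) atTop (𝓝[>] 0) :=
    tendsto_nhdsWithin_iff.2 ⟨tendsto_inv_atTop_nhds_zero_nat, by
      filter_upwards [eventually_gt_atTop 0] with l hl
      exact (inv_pos (a := (l : ℝ))).2 (by exact_mod_cast hl)⟩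
  refine ge_of_tendsto (h1.comp h2) ?_
  filter_upwards [eventually_gt_atTop 0] with l hl
  have : (0 : ℝ) < (l : ℝ)⁻¹ := inv_pos.2 (by exact_mod_cast hl)
  simp only [comp, zero_add, smul_eq_mul]
  rw [le_inv_mul_iff₀ this]
  linarith [h l]

end Pool.Agent.H.MP_15aca8
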