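import Pool.Agent.H.MP_15aca8.A

set_option autoImplicit false
open Set Filter Topology Function

namespace Pool.Agent.H.MP_15aca8

structure Lad (K L : Type) [TopologicalSpace K] where
  side : L → Bool
  cone : (ℕ → L) → ℕ → Set K
  piece : (ℕ → L) → ℕ → Set K
  V : (ℕ → L) → Bool → ℕ → Set K
  cone_congr : ∀ σ τ n, (∀ k < n, σ k = τ k) → cone σ n = cone τ n
  piece_congr : ∀ σ τ n, (∀ k ≤ n, σ k = τ k) → piece σ n = piece τ n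
  cone_succ : ∀ σ n, cone σ (n + 1) ⊆ cone σ n
  piece_sub : ∀ σ n, piece σ n ⊆ cone σ n
  piece_disj : ∀ σ n, Disjoint (piece σ n) (cone σ (n + 1))
  piece_clopen : ∀ σ n, IsClopen (piece σ n)
  V_clopen : ∀ σ j n, IsClopen (V σ j n)
  V_sub : ∀ σ j n, V σ j n ⊆ cone σ n
  V_succ : ∀ σ j n z, z ∈ V σ j n ↔ (side (σ n) = j ∧ z ∈ piece σ n) ∨ z ∈ V σ j (n + 1)
  V_disj : ∀ σ n, Disjoint (V σ false n) (V σ true n)
  real : ∀ σ n W j, IsClopen W → W ⊆ cone σ n → ∃ l : ℝ → L,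
    (Pairwise fun a b => Disjoint (cone (update σ n (l a)) (n + 1))
      (cone (update σ n (l b)) (n + 1))) ∧ (∀ a, side (l a) = j) ∧
    {a | piece (update σ n (l a)) n ≠ W}.Countable

variable {K L : Type} [TopologicalSpace K] (Λ : Lad K L)

theorem Lad.cone_anti (σ : ℕ → L) : Antitone (Λ.cone σ) :=
  antitone_nat_of_succ_le (Λ.cone_succ σ)

theorem Lad.pw (σ : ℕ → L) : Pairwise fun a b => Disjoint (Λ.piece σ a) (Λ.piece σ b) := by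
  have : ∀ a b, a < b → Disjoint (Λ.piece σ a) (Λ.piece σ b) := fun a b h =>
    (Λ.piece_disj σ a).mono_right ((Λ.piece_sub σ b).trans (Λ.cone_anti σ h))
  intro a b h
  rcases lt_or_gt_of_ne h with e | e
  exacts [this a b e, (this b a e).symm]

noncomputable def Lad.F (p : Seminorm ℝ C(K, ℝ)) (σ : ℕ → L) (n : ℕ) (g : C(K, ℝ)) (r : ℝ) : ℝ :=
  sSup {v | ∃ W, IsClopen W ∧ W ⊆ Λ.cone σ n ∧ v = p (g + r • ind W)}

noncomputable def Lad.g (σ : ℕ → L) (ρ : ℕ → ℝ) (n : ℕ) : C(K, ℝ) :=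
  ∑ k ∈ Finset.range n, ρ k • ind (Λ.piece σ k)

noncomputable def Lad.T (σ : ℕ → L) (ρ : ℕ → ℝ) (j : Bool) (N n : ℕ) (e : ℝ) : C(K, ℝ) :=
  ∑ k ∈ Finset.Ico N n, (if Λ.side (σ k) = j then ρ k - e else 0) • ind (Λ.piece σ k)

theorem Lad.g_congr {σ τ : ℕ → L} {ρ ρ' : ℕ → ℝ} {n : ℕ} (h : ∀ k < n, σ k = τ k ∧ ρ k = ρ' k) :
    Λ.g σ ρ n = Λ.g τ ρ' n :=
  Finset.sum_congr rfl fun k hk => by
    have hk := Finset.mem_range.1 hk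
    rw [(h k hk).2, Λ.piece_congr σ τ k fun i hi => (h i (hi.trans_lt hk)).1]

theorem Lad.T_congr {σ τ : ℕ → L} {ρ ρ' : ℕ → ℝ} {n : ℕ} (h : ∀ k < n, σ k = τ k ∧ ρ k = ρ' k)
    (j : Bool) (N : ℕ) (e : ℝ) : Λ.T σ ρ j N n (ρ N - e) = Λ.T τ ρ' j N n (ρ' N - e) :=
  Finset.sum_congr rfl fun k hk => by
    have hk := Finset.mem_Ico.1 hk
    rw [(h k hk.2).2, (h k hk.2).1, (h N (hk.1.trans_lt hk.2)).2,
      Λ.piece_congr σ τ k fun i hi => (h i (hi.trans_lt hk.2)).1]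

theorem Lad.F_congr (p : Seminorm ℝ C(K, ℝ)) {σ τ : ℕ → L} {n : ℕ} (h : ∀ k < n, σ k = τ k)
    (g : C(K, ℝ)) (r : ℝ) : Λ.F p σ n g r = Λ.F p τ n g r := by
  unfold Lad.F
  rw [Λ.cone_congr σ τ n h]

theorem Lad.F_le {p : Seminorm ℝ C(K, ℝ)} {σ : ℕ → L} {n : ℕ} {g : C(K, ℝ)} {r b : ℝ}
    (h : ∀ W, IsClopen W → W ⊆ Λ.cone σ n → p (g + r • ind W) ≤ b) : Λ.F p σ n g r ≤ b :=
  csSup_le ⟨_, ∅, isClopen_empty, empty_subset _, rfl⟩ (by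
    rintro _ ⟨W, h1, h2, rfl⟩
    exact h W h1 h2)

theorem Lad.F_near (p : Seminorm ℝ C(K, ℝ)) (σ : ℕ → L) (n : ℕ) (g : C(K, ℝ)) (r : ℝ) {ε : ℝ}
    (hε : 0 < ε) : ∃ W, IsClopen W ∧ W ⊆ Λ.cone σ n ∧ Λ.F p σ n g r - ε ≤ p (g + r • ind W) := by
  by_contra h
  push Not at h
  have := Λ.F_le fun W h1 h2 => (h W h1 h2).le
  linarith

structure St (L : Type) where
  n : ℕ
  σ : ℕ → L
  ρ : ℕ → ℝ
  r : ℝ

def Ext (z w : St L) : Prop :=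
  z.n ≤ w.n ∧ (∀ k < z.n, w.σ k = z.σ k ∧ w.ρ k = z.ρ k) ∧ z.r ≤ w.r ∧
    ∀ k, z.n ≤ k → k < w.n → z.r ≤ w.ρ k ∧ w.ρ k ≤ w.r

theorem Ext.rfl' (z : St L) : Ext z z :=
  ⟨le_rfl, fun _ _ => ⟨rfl, rfl⟩, le_rfl, fun _ h1 h2 => absurd h2 (not_lt.2 h1)⟩

theorem Ext.trans {z w u : St L} (a : Ext z w) (b : Ext w u) : Ext z u := by
  refine ⟨a.1.trans b.1, fun k hk => ?_, a.2.2.1.trans b.2.2.1, fun k h1 h2 => ?_⟩
  · have := b.2.1 k (hk.trans_le a.1)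
    exact ⟨this.1.trans (a.2.1 k hk).1, this.2.trans (a.2.1 k hk).2⟩
  · by_cases e : k < w.n
    · rw [(b.2.1 k e).2]
      exact ⟨(a.2.2.2 k h1 e).1, (a.2.2.2 k h1 e).2.trans b.2.2.1⟩
    · exact ⟨a.2.2.1.trans (b.2.2.2 k (not_lt.1 e) h2).1, (b.2.2.2 k (not_lt.1 e) h2).2⟩

noncomputable def Lad.q (p : Seminorm ℝ C(K, ℝ)) (a : ℝ) (z : St L) : ℝ :=
  Λ.F p z.σ z.n (Λ.g z.σ z.ρ z.n) z.r - a * z.r

theorem min_ext (q : St L → ℝ) (z : St L) (h : ∀ w, Ext z w → 0 ≤ q w) {ε : ℝ} (hε : 0 < ε) :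
    ∃ w, Ext z w ∧ q w ≤ q z ∧ ∀ u, Ext w u → q w ≤ q u + ε := by
  have hb : BddBelow (q '' {w | Ext z w}) := ⟨0, by rintro _ ⟨w, hw, rfl⟩; exact h w hw⟩
  obtain ⟨_, ⟨w, hw, rfl⟩, h2⟩ := exists_lt_of_csInf_lt (s := q '' {w | Ext z w})
    ⟨_, z, Ext.rfl' z, rfl⟩ (lt_add_of_pos_right _ hε)
  have h3 : ∀ u, Ext z u → q w ≤ q u + ε := fun u hu => by
    linarith [csInf_le hb ⟨u, hu, rfl⟩]
  rcases le_total (q w) (q z) with e | e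
  · exact ⟨w, hw, e, fun u hu => h3 u (hw.trans hu)⟩
  · exact ⟨z, Ext.rfl' z, le_rfl, fun u hu => e.trans (h3 u hu)⟩

variable [CompactSpace K] {p : Seminorm ℝ C(K, ℝ)} {C : ℝ} (hp : ∀ x, p x ≤ C * ‖x‖) (hC : 0 ≤ C)
include hp hC

theorem lip (x y : C(K, ℝ)) {b : ℝ} (h : ‖x - y‖ ≤ b) : p x ≤ p y + C * b := by
  have a1 := map_add_le_add p y (x - y)
  rw [add_sub_cancel] at a1
  linarith [(hp _).trans (mul_le_mul_of_nonneg_left h hC)]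

theorem Lad.le_F {σ : ℕ → L} {n : ℕ} (g : C(K, ℝ)) (r : ℝ) {W : Set K} (h1 : IsClopen W)
    (h2 : W ⊆ Λ.cone σ n) : p (g + r • ind W) ≤ Λ.F p σ n g r :=
  le_csSup ⟨p g + C * |r|, by
    rintro _ ⟨W, -, -, rfl⟩
    exact lip hp hC _ _ (by simpa using smul_ind_norm r W)⟩ ⟨W, h1, h2, rfl⟩

theorem Lad.step (a : ℝ) (ha : 0 ≤ a) (z : St L) {η ε : ℝ} (hη : 0 ≤ η) (hε : 0 < ε)
    (G : C(K, ℝ)) (j : Bool) : ∃ w : St L, Ext z w ∧ w.n = z.n + 1 ∧ w.r = z.r + η ∧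
      w.ρ z.n = z.r + η ∧ Λ.side (w.σ z.n) = j ∧ Λ.q p a w ≤ Λ.q p a z + C * η ∧
      ∀ y, Sp (Λ.cone w.σ (z.n + 1)) y →
        Λ.F p z.σ z.n G (z.r + η) - ε ≤ p (G + (z.r + η) • ind (Λ.piece w.σ z.n) + y) := by
  obtain ⟨W, w1, w2, w3⟩ := Λ.F_near p z.σ z.n G (z.r + η) hε
  obtain ⟨l, l1, l2, l3⟩ := Λ.real z.σ z.n W j w1 w2
  obtain ⟨b, hb⟩ : ∃ b, b ∉ _ := by
    by_contra h
    push Not at h
    exact Cardinal.not_countable_real ((l3.union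
      (far_count hp hC _ l1 (G + (z.r + η) • ind W))).mono fun b _ => h b)
  simp only [mem_union, mem_ofPred_eq, not_or, not_not, not_exists, not_and, not_lt] at hb
  have ag : ∀ k < z.n, update z.σ z.n (l b) k = z.σ k ∧ update z.ρ z.n (z.r + η) k = z.ρ k :=
    fun k hk => ⟨update_of_ne hk.ne _ _, update_of_ne hk.ne _ _⟩
  refine ⟨⟨z.n + 1, update z.σ z.n (l b), update z.ρ z.n (z.r + η), z.r + η⟩,
    ⟨Nat.le_succ _, ag, le_add_of_nonneg_right hη, fun k h1 h2 => ?_⟩, rfl, rfl, by simp,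
    by simp [l2], ?_, fun y hy => ?_⟩
  · obtain rfl : k = z.n := le_antisymm (Nat.lt_succ_iff.1 h2) h1
    simp [hη]
  · unfold Lad.q
    have : Λ.F p (update z.σ z.n (l b)) (z.n + 1)
        (Λ.g (update z.σ z.n (l b)) (update z.ρ z.n (z.r + η)) (z.n + 1)) (z.r + η) ≤
        Λ.F p z.σ z.n (Λ.g z.σ z.ρ z.n) z.r + C * η := by
      refine Λ.F_le fun U u1 u2 => ?_
      have e1 : Λ.g (update z.σ z.n (l b)) (update z.ρ z.n (z.r + η)) (z.n + 1) =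
          Λ.g z.σ z.ρ z.n + (z.r + η) • ind W := by
        rw [← Λ.g_congr ag, Lad.g, Finset.sum_range_succ, hb.1, update_self]
        rfl
      have e2 : Disjoint W U := by
        rw [← hb.1]
        exact (Λ.piece_disj _ _).mono_right u2
      have e3 : U ⊆ Λ.cone z.σ z.n := by
        rw [← Λ.cone_congr _ _ _ fun k hk => (ag k hk).1]
        exact u2.trans (Λ.cone_succ _ _)
      rw [e1, add_assoc, ← smul_add, ← ind_union w1 u1 e2]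
      refine (lip hp hC _ (Λ.g z.σ z.ρ z.n + z.r • ind (W ∪ U)) (b := η) ?_).trans
        (add_le_add (Λ.le_F hp hC _ _ (w1.union u1) (union_subset w2 e3)) le_rfl)
      rw [add_sub_add_left_eq_sub, ← sub_smul, add_sub_cancel_left]
      exact (smul_ind_norm _ _).trans (abs_of_nonneg hη).le
    have := mul_nonneg ha hη
    simp only
    nlinarith
  · simp only
    rw [hb.1]
    exact w3.trans (hb.2 y hy)

theorem Lad.q_lb {a : ℝ} {z : St L} (hr : 0 ≤ z.r)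
    (h : ∃ W, IsClopen W ∧ W ⊆ Λ.cone z.σ z.n ∧ 4 * a ≤ p (ind W)) : a * z.r ≤ Λ.q p a z := by
  obtain ⟨W, w1, w2, w3⟩ := h
  have a1 := Λ.le_F hp hC (Λ.g z.σ z.ρ z.n) z.r w1 w2
  have a2 := Λ.le_F hp hC (σ := z.σ) (n := z.n) (Λ.g z.σ z.ρ z.n) z.r isClopen_empty
    (empty_subset _)
  rw [ind_empty, smul_zero, add_zero] at a2
  have a3 := map_sub_le_add p (Λ.g z.σ z.ρ z.n + z.r • ind W) (Λ.g z.σ z.ρ z.n)
  rw [add_sub_cancel_left, map_smul_eq_mul, Real.norm_of_nonneg hr] at a3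
  have := mul_le_mul_of_nonneg_left w3 hr
  unfold Lad.q
  linarith

theorem Lad.play {a : ℝ} (ha : 0 < a) (σ0 : ℕ → L) (n0 : ℕ)
    (hl : ∀ σ n, n0 ≤ n → (∀ k < n0, σ k = σ0 k) →
      ∃ W, IsClopen W ∧ W ⊆ Λ.cone σ n ∧ 4 * a ≤ p (ind W))
    (tN tm : ℕ → ℕ) (tj : ℕ → Bool) (tt : ℕ → ℝ) :
    ∃ (σ : ℕ → L) (ρ : ℕ → ℝ) (n : ℕ → ℕ) (c : ℕ → ℝ), StrictMono n ∧
      (∀ i, c i + (1 / 2) ^ i ≤ c (i + 1)) ∧ BddAbove (range c) ∧
      (∀ i, ρ (n i) = c i + (1 / 2) ^ i) ∧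
      (∀ i k, n i ≤ k → k < n (i + 1) → c i ≤ ρ k ∧ ρ k ≤ c (i + 1)) ∧
      (∀ i, Λ.side (σ (n i)) = !tj i) ∧
      (∀ m i, m ≤ i → Λ.F p σ (n m) (Λ.g σ ρ (n m)) (c m) - a * c m ≤
        Λ.F p σ (n i) (Λ.g σ ρ (n i)) (c i + (1 / 2) ^ i) - a * (c i + (1 / 2) ^ i) +
          a * (1 / 2) ^ m / 2) ∧
      ∀ i y, Sp (Λ.cone σ (n i + 1)) y →
        Λ.F p σ (n i) (Λ.g σ ρ (n i) - tt i • Λ.T σ ρ (tj i) (tN i) (n i)
            (ρ (tN i) - (1 / 2) ^ tm i)) (c i + (1 / 2) ^ i) - (1 / 2) ^ i ≤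
          p (Λ.g σ ρ (n i) - tt i • Λ.T σ ρ (tj i) (tN i) (n i) (ρ (tN i) - (1 / 2) ^ tm i) +
            (c i + (1 / 2) ^ i) • ind (Λ.piece σ (n i)) + y) := by
  let z0 : St L := ⟨n0, σ0, fun _ => 0, 0⟩
  have lb : ∀ w, Ext z0 w → a * w.r ≤ Λ.q p a w := fun w hw =>
    Λ.q_lb hp hC hw.2.2.1 (hl _ _ hw.1 fun k hk => (hw.2.1 k hk).1)
  have lb0 : ∀ w, Ext z0 w → ∀ u, Ext w u → 0 ≤ Λ.q p a u := fun w hw u hu =>
    (mul_nonneg ha.le (hw.trans hu).2.2.1).trans (lb u (hw.trans hu))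
  let G : ℕ → St L → C(K, ℝ) := fun i z => Λ.g z.σ z.ρ z.n - tt i • Λ.T z.σ z.ρ (tj i) (tN i) z.n
    (z.ρ (tN i) - (1 / 2) ^ tm i)
  let I : ℕ → St L → Prop := fun i z => Ext z0 z ∧
    ∀ u, Ext z u → Λ.q p a z ≤ Λ.q p a u + a * (1 / 2) ^ i / 2
  let R : ℕ → St L → St L → Prop := fun i z w => Ext z w ∧ z.n < w.n ∧ z.r + (1 / 2) ^ i ≤ w.r ∧
    w.ρ z.n = z.r + (1 / 2) ^ i ∧ Λ.side (w.σ z.n) = !tj i ∧
    Λ.q p a w ≤ Λ.q p a z + C * (1 / 2) ^ i ∧ ∀ y, Sp (Λ.cone w.σ (z.n + 1)) y →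
      Λ.F p z.σ z.n (G i z) (z.r + (1 / 2) ^ i) - (1 / 2) ^ i ≤
        p (G i z + (z.r + (1 / 2) ^ i) • ind (Λ.piece w.σ z.n) + y)
  have st : ∀ i z, ∃ w, I i z → I (i + 1) w ∧ R i z w := fun i z => by
    by_cases hz : I i z
    swap
    · exact ⟨z, fun h => absurd h hz⟩
    obtain ⟨w, w1, w2, w3, w4, w5, w6, w7⟩ := Λ.step hp hC a ha.le z (η := (1 / 2) ^ i)
      (ε := (1 / 2) ^ i) (by positivity) (by positivity) (G i z) (!tj i)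
    obtain ⟨u, u1, u2, u3⟩ := min_ext (Λ.q p a) w (lb0 w (hz.1.trans w1))
      (ε := a * (1 / 2) ^ (i + 1) / 2) (by positivity)
    have e := u1.2.1
    rw [w2] at e
    refine ⟨u, fun _ => ⟨⟨hz.1.trans (w1.trans u1), u3⟩, w1.trans u1,
      (Nat.lt_succ_self _).trans_le (w2.symm.trans_le u1.1), w3 ▸ u1.2.2.1,
      (e _ (Nat.lt_succ_self _)).2.trans w4, by rw [(e _ (Nat.lt_succ_self _)).1, w5],
      u2.trans w6, fun y hy => ?_⟩⟩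
    rw [Λ.piece_congr u.σ w.σ z.n fun k hk => (e k (Nat.lt_succ_of_le hk)).1]
    exact w7 y (by rwa [← Λ.cone_congr u.σ w.σ _ fun k hk => (e k hk).1])
  choose f hf using st
  obtain ⟨z1, h1, -, h2⟩ := min_ext (Λ.q p a) z0 (lb0 z0 (Ext.rfl' _))
    (ε := a * (1 / 2) ^ 0 / 2) (by positivity)
  obtain ⟨z, e0, e1⟩ : ∃ z : ℕ → St L, z 0 = z1 ∧ ∀ i, z (i + 1) = f i (z i) :=
    ⟨fun i => Nat.rec z1 f i, rfl, fun _ => rfl⟩
  have hI : ∀ i, I i (z i) := fun i => by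
    induction i with
    | zero => exact e0 ▸ ⟨h1, h2⟩
    | succ i ih => exact e1 i ▸ (hf i _ ih).1
  have hR : ∀ i, R i (z i) (z (i + 1)) := fun i => e1 i ▸ (hf i _ (hI i)).2
  obtain ⟨t, ht⟩ := lim_seq (fun i => (z i).n) (fun i k => ((z i).σ k, (z i).ρ k))
    (fun i => (hR i).2.1) fun i k hk =>
      Prod.ext ((hR i).1.2.1 k hk).1 ((hR i).1.2.1 k hk).2
  have ag : ∀ i, ∀ k < (z i).n, (z i).σ k = (t k).1 ∧ (z i).ρ k = (t k).2 := fun i k hk =>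
    Prod.ext_iff.1 (ht i k hk)
  have hE : ∀ m i, m ≤ i → Ext (z m) (z i) := fun m i h => by
    induction h with
    | refl => exact Ext.rfl' _
    | step _ ih => exact ih.trans (hR _).1
  have hq : ∀ i, Λ.q p a (z i) ≤ Λ.q p a (z 0) + C * (2 - 2 * (1 / 2) ^ i) := fun i => by
    induction i with
    | zero => simp
    | succ i ih =>
      have := (hR i).2.2.2.2.2.1
      rw [pow_succ]
      linarith
  refine ⟨fun k => (t k).1, fun k => (t k).2, fun i => (z i).n, fun i => (z i).r,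
    strictMono_nat_of_lt_succ fun i => (hR i).2.1, fun i => (hR i).2.2.1,
    ⟨(Λ.q p a (z 0) + C * 2) / a, ?_⟩, fun i => ?_, fun i k k1 k2 => ?_, fun i => ?_,
    fun m i h => ?_, fun i y hy => ?_⟩
  · rintro _ ⟨i, rfl⟩
    rw [le_div_iff₀ ha]
    have a1 := lb _ (hI i).1
    have a2 : 0 ≤ C * (2 * (1 / 2) ^ i) := by positivity
    linarith [hq i]
  · exact (ag (i + 1) _ (hR i).2.1).2.symm.trans (hR i).2.2.2.1
  · simp only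
    rw [← (ag (i + 1) k k2).2]
    exact (hR i).1.2.2.2 k k1 k2
  · simp only
    rw [← (ag (i + 1) _ (hR i).2.1).1]
    exact (hR i).2.2.2.2.1
  · have := (hI m).2 ⟨(z i).n, (z i).σ, (z i).ρ, (z i).r + (1 / 2) ^ i⟩ ((hE m i h).trans
      ⟨le_rfl, fun _ _ => ⟨rfl, rfl⟩, le_add_of_nonneg_right (by positivity),
        fun _ h1 h2 => absurd h2 (not_lt.2 h1)⟩)
    unfold Lad.q at this
    simp only at this ⊢
    rwa [Λ.g_congr (ag m), Λ.g_congr (ag i), Λ.F_congr p fun k hk => (ag m k hk).1,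
      Λ.F_congr p fun k hk => (ag i k hk).1] at this
  · have a1 : ∀ k < (z i).n + 1, (z (i + 1)).σ k = (t k).1 := fun k hk =>
      (ag (i + 1) k ((Nat.lt_succ_iff.1 hk).trans_lt (hR i).2.1)).1
    have := (hR i).2.2.2.2.2.2 y (by rwa [Λ.cone_congr _ _ _ a1])
    simp only [G] at this ⊢
    rwa [Λ.g_congr (ag i), Λ.T_congr (ag i), Λ.F_congr p fun k hk => (ag i k hk).1,
      Λ.piece_congr (z (i + 1)).σ _ _ fun k hk => a1 k (Nat.lt_succ_of_le hk)] at this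

end Pool.Agent.H.MP_15aca8
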