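import Pool.Agent.H.MP_15aca8.B

set_option autoImplicit false
open Set Filter Topology Function

namespace Pool.Agent.H.MP_15aca8

variable {K L : Type} [TopologicalSpace K] (Λ : Lad K L)

theorem Lad.T_add (σ : ℕ → L) (ρ : ℕ → ℝ) (j : Bool) {N n m : ℕ} (h1 : N ≤ n) (h2 : n ≤ m)
    (e : ℝ) : Λ.T σ ρ j N n e + Λ.T σ ρ j n m e = Λ.T σ ρ j N m e :=
  Finset.sum_Ico_consecutive _ h1 h2

theorem Lad.T_sp (σ : ℕ → L) (ρ : ℕ → ℝ) (j : Bool) (N n : ℕ) (e : ℝ) :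
    Sp (Λ.cone σ N) (Λ.T σ ρ j N n e) := fun z hz => by
  unfold Lad.T
  rw [ContinuousMap.sum_apply]
  exact Finset.sum_eq_zero fun k hk => (sp_ind ((Λ.piece_sub σ k).trans
    (Λ.cone_anti σ (Finset.mem_Ico.1 hk).1))).smul _ z hz

theorem Lad.T_succ (σ : ℕ → L) (ρ : ℕ → ℝ) (j : Bool) (n : ℕ) (e : ℝ) :
    Λ.T σ ρ j n (n + 1) e = (if Λ.side (σ n) = j then ρ n - e else 0) • ind (Λ.piece σ n) := by
  simp [Lad.T]

theorem Lad.I_succ (σ : ℕ → L) (j : Bool) (n : ℕ) : ind (Λ.V σ j n) =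
    (if Λ.side (σ n) = j then (1 : ℝ) else 0) • ind (Λ.piece σ n) + ind (Λ.V σ j (n + 1)) := by
  split_ifs with h
  · rw [one_smul, ← ind_union (Λ.piece_clopen _ _) (Λ.V_clopen _ _ _)
      ((Λ.piece_disj σ n).mono_right (Λ.V_sub _ _ _))]
    congr 1
    ext z
    rw [Λ.V_succ]
    simp [h]
  · rw [zero_smul, zero_add]
    congr 1
    ext z
    rw [Λ.V_succ]
    simp [h]

theorem Lad.g_eq (σ : ℕ → L) (ρ : ℕ → ℝ) (n : ℕ) :
    Λ.g σ ρ n = Λ.T σ ρ false 0 n 0 + Λ.T σ ρ true 0 n 0 := by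
  unfold Lad.g Lad.T
  rw [← Finset.sum_add_distrib, Finset.range_eq_Ico]
  refine Finset.sum_congr rfl fun k _ => ?_
  cases Λ.side (σ k) <;> simp

variable [CompactSpace K]

theorem Lad.T_norm (σ : ℕ → L) (ρ : ℕ → ℝ) (j : Bool) (N n : ℕ) (e : ℝ) {b : ℝ} (hb : 0 ≤ b)
    (h : ∀ k, N ≤ k → |ρ k - e| ≤ b) : ‖Λ.T σ ρ j N n e‖ ≤ b := by
  refine norm_sum_disj _ _ _ hb (Λ.pw σ) (fun k _ => (sp_ind subset_rfl).smul _) fun k hk =>
    (smul_ind_norm _ _).trans ?_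
  split_ifs
  · exact h k (Finset.mem_Ico.1 hk).1
  · simpa using hb

theorem Lad.exZ (σ : ℕ → L) (ρ : ℕ → ℝ) (c : ℝ) (n : ℕ → ℕ) (τ : ℕ → ℝ)
    (h0 : Tendsto τ atTop (𝓝 0)) (h : ∀ i k, n i ≤ k → |ρ k - c| ≤ τ i) :
    ∃ Z : Bool → ℕ → ℝ → C(K, ℝ), (∀ j N m e, N ≤ m → Z j N e = Λ.T σ ρ j N m e + Z j m e) ∧
      (∀ j N e, Z j N 0 = Z j N e + e • ind (Λ.V σ j N)) ∧
      (∀ j i N e, n i ≤ N → ‖Z j N e‖ ≤ τ i + |c - e|) ∧
      ∀ j N e, Sp (Λ.cone σ N) (Z j N e) := by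
  have hτ : ∀ i, 0 ≤ τ i := fun i => (abs_nonneg _).trans (h i _ le_rfl)
  have d : ∀ j N m, N ≤ m → Λ.T σ ρ j 0 m c - Λ.T σ ρ j 0 N c = Λ.T σ ρ j N m c :=
    fun j N m e => by rw [← Λ.T_add σ ρ j (Nat.zero_le N) e, add_sub_cancel_left]
  have : ∀ j, ∃ E, Tendsto (fun m => Λ.T σ ρ j 0 m c) atTop (𝓝 E) := fun j => by
    refine cauchySeq_tendsto_of_complete (Metric.cauchySeq_iff'.2 fun ε hε => ?_)
    obtain ⟨i, hi⟩ := (h0.eventually (gt_mem_nhds hε)).exists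
    refine ⟨n i, fun m hm => ?_⟩
    rw [dist_eq_norm, d j _ _ hm]
    exact (Λ.T_norm _ _ _ _ _ _ (hτ i) (h i)).trans_lt hi
  choose E hE using this
  have hE' : ∀ j N, Tendsto (fun m => Λ.T σ ρ j N m c) atTop (𝓝 (E j - Λ.T σ ρ j 0 N c)) :=
    fun j N => ((hE j).sub_const _).congr' (by
      filter_upwards [eventually_ge_atTop N] with m hm using d j N m hm)
  refine ⟨fun j N e => E j - Λ.T σ ρ j 0 N c + (c - e) • ind (Λ.V σ j N), fun j N m e hm => ?_,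
    fun j N e => by module, fun j i N e hi => ?_, fun j N e => Sp.add (fun z hz => ?_)
      ((sp_ind (Λ.V_sub _ _ _)).smul _)⟩
  · induction hm with
    | refl => simp [Lad.T]
    | @step m hm ih =>
      simp only at ih ⊢
      rw [ih, ← Λ.T_add σ ρ j hm (Nat.le_succ m), ← Λ.T_add σ ρ j (Nat.zero_le m) (Nat.le_succ m),
        Λ.T_succ, Λ.T_succ, Λ.I_succ σ j m]
      split_ifs <;> module
  · refine (norm_add_le _ _).trans (add_le_add ?_ (smul_ind_norm _ _))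
    exact le_of_tendsto' (hE' j N).norm fun m =>
      Λ.T_norm _ _ _ _ _ _ (hτ i) fun k hk => h i k (hi.trans hk)
  · have := ((continuous_eval_const z).tendsto _).comp (hE' j N)
    exact tendsto_nhds_unique this (tendsto_const_nhds.congr fun m => (Λ.T_sp σ ρ j N m c z hz).symm)

theorem Lad.tails (σ : ℕ → L) (φ : C(K, ℝ) →L[ℝ] ℝ) {ε : ℝ} (hε : 0 < ε) :
    ∃ M, ∀ N m, M ≤ N → ∑ k ∈ Finset.Ico N m, |φ (ind (Λ.piece σ k))| ≤ ε := by
  have hs : Summable fun k => |φ (ind (Λ.piece σ k))| := by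
    refine summable_of_sum_range_le (c := ‖φ‖) (fun _ => abs_nonneg _) fun m => ?_
    have a1 : ‖∑ k ∈ Finset.range m, (if 0 ≤ φ (ind (Λ.piece σ k)) then (1 : ℝ) else -1) •
        ind (Λ.piece σ k)‖ ≤ 1 :=
      norm_sum_disj _ _ _ zero_le_one (Λ.pw σ) (fun k _ => (sp_ind subset_rfl).smul _)
        fun k _ => (smul_ind_norm _ _).trans (by split_ifs <;> simp)
    have a2 := (le_abs_self _).trans (φ.le_of_opNorm_le_of_le le_rfl a1)
    rw [map_sum, mul_one] at a2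
    refine le_of_eq_of_le (Finset.sum_congr rfl fun k _ => ?_) a2
    rw [map_smul]
    split_ifs with h
    · simp [abs_of_nonneg h]
    · simp [abs_of_neg (not_le.1 h)]
  obtain ⟨s, h⟩ := summable_iff_vanishing_norm.1 hs ε hε
  refine ⟨s.sup id + 1, fun N m hN => (le_abs_self _).trans (h _ ?_).le⟩
  refine Finset.disjoint_left.2 fun k k1 k2 => ?_
  have := Finset.le_sup (f := id) k2
  have := (Finset.mem_Ico.1 k1).1
  simp only [id] at *
  omega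

variable {p : Seminorm ℝ C(K, ℝ)} {C : ℝ} (hp : ∀ x, p x ≤ C * ‖x‖) (hC : 0 ≤ C)
include hp hC

theorem Lad.main {a : ℝ} (ha : 0 < a) (σ0 : ℕ → L) (n0 : ℕ)
    (hl : ∀ σ n, n0 ≤ n → (∀ k < n0, σ k = σ0 k) →
      ∃ W, IsClopen W ∧ W ⊆ Λ.cone σ n ∧ 4 * a ≤ p (ind W)) :
    ∃ x, 0 < p x ∧ (∀ δ > 0, ∃ (h : C(K, ℝ)) (τ : ℝ), 0 < τ ∧ τ ≤ δ ∧ ‖h‖ ≤ 4 ∧
      p (x + τ • h) ≤ p x - a / 2 * τ ∧ ∀ t : ℝ, p x - δ ≤ p (x + t • h)) ∧
      ¬ ∃ φ : C(K, ℝ) →L[ℝ] ℝ, ∀ h, HasDerivAt (fun t : ℝ => p (x + t • h)) (φ h) 0 := by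
  obtain ⟨e, he⟩ := exists_surjective_nat (ℕ × ℕ × Bool × ℕ)
  obtain ⟨tk, htk⟩ : ∃ tk : ℕ → ℕ × ℕ × Bool × ℕ, ∀ u, ∃ᶠ i in atTop, tk i = u :=
    ⟨fun i => e (Nat.unpair i).1, fun u => frequently_atTop.2 fun I => by
      obtain ⟨b, rfl⟩ := he u
      exact ⟨Nat.pair b I, Nat.right_le_pair _ _, by simp⟩⟩
  obtain ⟨σ, ρ, n, c, n1, c1, c2, r1, r2, s1, m1, f1⟩ := Λ.play hp hC ha σ0 n0 hl
    (fun i => (tk i).1) (fun i => (tk i).2.1) (fun i => (tk i).2.2.1)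
    fun i => ((tk i).2.2.2 : ℝ)⁻¹
  have hpos : ∀ i : ℕ, (0 : ℝ) < (1 / 2) ^ i := fun i => by positivity
  have cm : Monotone c := monotone_nat_of_le_succ fun i => by linarith [c1 i, hpos i]
  obtain ⟨cc, c3, c4⟩ : ∃ cc, Tendsto c atTop (𝓝 cc) ∧ ∀ i, c i ≤ cc :=
    ⟨_, tendsto_atTop_ciSup cm c2, le_ciSup c2⟩
  have r3 : ∀ i k, n i ≤ k → c i ≤ ρ k ∧ ρ k ≤ cc := fun i k hk => by
    have : ∃ i', i ≤ i' ∧ n i' ≤ k ∧ k < n (i' + 1) := by
      induction hk with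
      | refl => exact ⟨i, le_rfl, le_rfl, n1 (Nat.lt_succ_self i)⟩
      | @step k _ ih =>
        obtain ⟨i', a1, a2, a3⟩ := ih
        by_cases e : k + 1 < n (i' + 1)
        · exact ⟨i', a1, a2.trans (Nat.le_succ k), e⟩
        · have := n1 (Nat.lt_succ_self (i' + 1))
          exact ⟨i' + 1, a1.trans (Nat.le_succ _), not_lt.1 e, by
            change k + 1 < n (i' + 1).succ; omega⟩
    obtain ⟨i', a1, a2, a3⟩ := this
    exact ⟨(cm a1).trans (r2 i' k a2 a3).1, (r2 i' k a2 a3).2.trans (c4 _)⟩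
  have t0 : Tendsto (fun i => cc - c i) atTop (𝓝 0) := by simpa using c3.const_sub cc
  have t1 : ∀ i, (1 / 2) ^ i ≤ cc - c i := fun i => by linarith [c1 i, c4 (i + 1)]
  have t2 : Tendsto (fun i : ℕ => (1 / 2 : ℝ) ^ i) atTop (𝓝 0) :=
    tendsto_pow_atTop_nhds_zero_of_lt_one (by norm_num) (by norm_num)
  obtain ⟨Z, z1, z2, z3, z4⟩ := Λ.exZ σ ρ cc n _ t0 fun i k hk =>
    abs_le.2 ⟨by linarith [(r3 i k hk).1], by linarith [(r3 i k hk).2, c4 i]⟩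
  obtain ⟨x, hx⟩ : ∃ x, ∀ N, x = Λ.g σ ρ N + (Z false N 0 + Z true N 0) :=
    ⟨Z false 0 0 + Z true 0 0, fun N => by
      rw [z1 false 0 N 0 (Nat.zero_le N), z1 true 0 N 0 (Nat.zero_le N), Λ.g_eq]; abel⟩
  have hx2 : ∀ N e, x = Λ.g σ ρ N + e • ind (Λ.V σ false N ∪ Λ.V σ true N) +
      (Z false N e + Z true N e) := fun N e => by
    rw [hx N, z2 false N e, z2 true N e,
      ind_union (Λ.V_clopen _ _ _) (Λ.V_clopen _ _ _) (Λ.V_disj _ _)]
    module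
  have hV : ∀ N G e, p (G + e • ind (Λ.V σ false N ∪ Λ.V σ true N)) ≤ Λ.F p σ N G e :=
    fun N G e => Λ.le_F hp hC G e ((Λ.V_clopen _ _ _).union (Λ.V_clopen _ _ _))
      (union_subset (Λ.V_sub _ _ _) (Λ.V_sub _ _ _))
  have zn : ∀ i e, c i ≤ e → e ≤ cc → ‖Z false (n i) e + Z true (n i) e‖ ≤ 4 * (cc - c i) :=
    fun i e h1 h2 => by
      have a1 := z3 false i _ e le_rfl
      have a2 := z3 true i _ e le_rfl
      rw [abs_of_nonneg (sub_nonneg.2 h2)] at a1 a2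
      linarith [norm_add_le (Z false (n i) e) (Z true (n i) e)]
  obtain ⟨T', hT'⟩ : ∃ T' : ℕ → C(K, ℝ), ∀ i, T' i = ((tk i).2.2.2 : ℝ)⁻¹ •
      Λ.T σ ρ (tk i).2.2.1 (tk i).1 (n i) (ρ (tk i).1 - (1 / 2) ^ (tk i).2.1) := ⟨_, fun _ => rfl⟩
  simp only [← hT'] at f1
  have k0 : ∀ i y, Sp (Λ.cone σ (n i + 1)) y →
      Λ.F p σ (n i) (Λ.g σ ρ (n i) - T' i) (c i + (1 / 2) ^ i) - (1 / 2) ^ i ≤
        p (x - T' i + y) := fun i y hy => by
    refine (f1 i _ (((z4 false _ 0).add (z4 true _ 0)).add hy)).trans_eq (congrArg p ?_)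
    rw [hx (n i + 1), Lad.g, Lad.g, Finset.sum_range_succ, r1]
    abel
  have k1 : ∀ i y, Sp (Λ.cone σ (n i + 1)) y →
      p (x - T' i) - ((1 / 2) ^ i + C * (4 * (cc - c i))) ≤ p (x - T' i + y) := fun i y hy => by
    have a1 := lip hp hC (x - T' i) (Λ.g σ ρ (n i) - T' i + (c i + (1 / 2) ^ i) •
      ind (Λ.V σ false (n i) ∪ Λ.V σ true (n i))) (b := 4 * (cc - c i)) (by
        refine le_of_eq_of_le (congrArg _ ?_) (zn i (c i + (1 / 2) ^ i) (by linarith [hpos i])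
          (by linarith [t1 i]))
        conv_lhs => rw [hx2 (n i) (c i + (1 / 2) ^ i)]
        abel)
    linarith [k0 i y hy, hV (n i) (Λ.g σ ρ (n i) - T' i) (c i + (1 / 2) ^ i)]
  have t3 : Tendsto (fun i => (1 / 2) ^ i + C * (4 * (cc - c i))) atTop (𝓝 0) := by
    simpa using t2.add ((t0.const_mul 4).const_mul C)
  have T0 : ∃ᶠ i in atTop, T' i = 0 := (htk (0, 0, false, 0)).mono fun i hi => by
    rw [hT', hi]; simp
  have k2 : ∀ m, p (x - (Z false (n m) (c m) + Z true (n m) (c m))) ≤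
      p x - a / 2 * (cc - c m) := fun m => by
    have a1 : Tendsto (fun i => p x + (1 / 2) ^ i - a * (c i - c m) + a * (cc - c m) / 2) atTop
        (𝓝 (p x + 0 - a * (cc - c m) + a * (cc - c m) / 2)) :=
      ((t2.const_add _).sub ((c3.sub_const _).const_mul a)).add_const _
    refine (ge_of_tendsto_of_frequently a1 ((T0.and_eventually (eventually_ge_atTop m)).mono
      fun i hi => ?_)).trans_eq (by ring)
    have a2 := k0 i 0 fun _ _ => rfl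
    rw [hi.1, sub_zero, sub_zero, add_zero] at a2
    have a3 := hV (n m) (Λ.g σ ρ (n m)) (c m)
    rw [← eq_sub_of_add_eq (hx2 (n m) (c m)).symm] at *
    have a4 := mul_le_mul_of_nonneg_left (t1 m) ha.le
    have a5 := mul_pos ha (hpos i)
    linarith [m1 m i hi.2]
  refine ⟨x, ?_, fun δ hδ => ?_, ?_⟩
  · have := mul_pos (half_pos ha) ((hpos 0).trans_le (t1 0))
    linarith [k2 0, apply_nonneg p (x - (Z false (n 0) (c 0) + Z true (n 0) (c 0)))]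
  · obtain ⟨i, i1, i2, i3⟩ := (T0.and_eventually ((t3.eventually (gt_mem_nhds hδ)).and
      (t0.eventually (gt_mem_nhds hδ)))).exists
    have a1 := (hpos (i + 1)).trans_le (t1 (i + 1))
    refine ⟨-(cc - c (i + 1))⁻¹ • (Z false (n (i + 1)) (c (i + 1)) + Z true (n (i + 1)) (c (i + 1))),
      cc - c (i + 1), a1, by linarith [cm (Nat.le_succ i)], ?_, ?_, fun t => ?_⟩
    · rw [norm_smul, norm_neg, Real.norm_of_nonneg (inv_pos.2 a1).le, inv_mul_le_iff₀ a1]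
      linarith [zn (i + 1) _ le_rfl (c4 _)]
    · rw [smul_smul, mul_neg, mul_inv_cancel₀ a1.ne', neg_one_smul, ← sub_eq_add_neg]
      exact k2 _
    · have := k1 i _ (((((z4 false _ (c (i + 1))).add (z4 true _ (c (i + 1)))).smul
        (-(cc - c (i + 1))⁻¹)).smul t).mono (Λ.cone_anti σ (n1 (Nat.lt_succ_self i))))
      rw [i1, sub_zero] at this
      linarith
  · rintro ⟨φ, hφ⟩
    obtain ⟨m, hm⟩ := Λ.tails σ φ (ε := a / 8) (by positivity)
    have a1 := (hpos m).trans_le (t1 m)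
    have a2 : ∀ j, φ (Z j (n m) (c m)) ≤ (cc - c m) * (a / 8) := fun j => by
      have b1 : ∀ N, φ (Λ.T σ ρ j (n m) N (c m)) ≤ (cc - c m) * (a / 8) := fun N => by
        refine le_trans ?_ (mul_le_mul_of_nonneg_left (hm _ N (n1.id_le m)) a1.le)
        rw [Lad.T, map_sum, Finset.mul_sum]
        refine Finset.sum_le_sum fun k hk => (le_abs_self _).trans ?_
        rw [map_smul, smul_eq_mul, abs_mul]
        refine mul_le_mul_of_nonneg_right ?_ (abs_nonneg _)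
        have := r3 m k (Finset.mem_Ico.1 hk).1
        split_ifs
        · exact abs_le.2 ⟨by linarith, by linarith⟩
        · simpa using c4 m
      have b2 := der_ge (b := (cc - c m) * (a / 8)) (hφ (-Z j (n m) (c m))) fun l => by
        simp only [zero_smul, add_zero]
        have a1 : Tendsto (fun i => p (x + (l : ℝ)⁻¹ • -Z j (n m) (c m)) +
            ((1 / 2) ^ i + C * (4 * (cc - c i)))) atTop (𝓝 (_ + 0)) := t3.const_add _
        refine (ge_of_tendsto_of_frequently a1 (((htk (n m, m, j, l)).and_eventually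
          (eventually_ge_atTop m)).mono fun i hi => ?_)).trans_eq (add_zero _)
        have e1 : T' i = (l : ℝ)⁻¹ • Λ.T σ ρ j (n m) (n i) (c m) := by
          rw [hT', hi.1]
          simp only
          rw [r1, add_sub_cancel_right]
        have e2 : Z j (n i) (c m) = Z j (n i + 1) (c m) := by
          rw [z1 j _ _ _ (Nat.le_succ _), Λ.T_succ, s1, hi.1]
          simp
        have e3 := k1 i _ ((z4 j (n i + 1) (c m)).smul (-(l : ℝ)⁻¹))
        have e4 := subgrad p x _ (hφ (-T' i))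
        rw [map_neg, ← sub_eq_add_neg x] at e4
        have e5 : x - T' i + -(l : ℝ)⁻¹ • Z j (n i + 1) (c m) =
            x + (l : ℝ)⁻¹ • -Z j (n m) (c m) := by
          rw [e1, z1 j (n m) (n i) _ (n1.monotone hi.2), e2]
          module
        have e6 : φ (T' i) ≤ (l : ℝ)⁻¹ * ((cc - c m) * (a / 8)) := by
          rw [e1, map_smul]
          exact mul_le_mul_of_nonneg_left (b1 _) (by positivity)
        rw [e5] at e3
        linarith
      rw [map_neg] at b2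
      linarith
    have a3 := subgrad p x _ (hφ (-(Z false (n m) (c m) + Z true (n m) (c m))))
    rw [map_neg, map_add, ← sub_eq_add_neg x] at a3
    have := mul_pos ha a1
    linarith [k2 m, a2 false, a2 true]

omit hp hC [CompactSpace K] in
theorem Lad.lower [Nonempty L] (hn : ∀ σ, ∃ W, IsClopen W ∧ (∀ n, W ⊆ Λ.cone σ n) ∧ 0 < p (ind W)) :
    ∃ a > 0, ∃ (σ0 : ℕ → L) (n0 : ℕ), ∀ (σ : ℕ → L) n, n0 ≤ n → (∀ k < n0, σ k = σ0 k) →
      ∃ W, IsClopen W ∧ W ⊆ Λ.cone σ n ∧ 4 * a ≤ p (ind W) := by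
  by_contra h
  push Not at h
  have st : ∀ (i : ℕ) (z : (ℕ → L) × ℕ), ∃ w : (ℕ → L) × ℕ, z.2 < w.2 ∧ (∀ k < z.2, w.1 k = z.1 k) ∧
      ∀ W, IsClopen W → W ⊆ Λ.cone w.1 w.2 → p (ind W) < 4 * (1 / (i + 1)) := fun i z => by
    obtain ⟨σ, n, h1, h2, h3⟩ := h (1 / (i + 1)) (by positivity) z.1 (z.2 + 1)
    exact ⟨(σ, n), h1, fun k hk => h2 k (hk.trans (Nat.lt_succ_self _)), h3⟩
  choose f f1 f2 f3 using st
  obtain ⟨z, e1⟩ : ∃ z : ℕ → (ℕ → L) × ℕ, ∀ i, z (i + 1) = f i (z i) :=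
    ⟨fun i => Nat.rec (Classical.arbitrary _) f i, fun _ => rfl⟩
  obtain ⟨t, ht⟩ := lim_seq (fun i => (z i).2) (fun i => (z i).1) (fun i => e1 i ▸ f1 i _)
    fun i k hk => e1 i ▸ f2 i _ k hk
  obtain ⟨W, w1, w2, w3⟩ := hn t
  obtain ⟨i, hi⟩ := exists_nat_one_div_lt (show 0 < p (ind W) / 4 by positivity)
  have := f3 i (z i) W w1 (by rw [← e1, Λ.cone_congr _ _ _ (ht (i + 1))]; exact w2 _)
  linarith

end Pool.Agent.H.MP_15aca8
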