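import Pool.Agent.H.MP_15aca8.C

set_option autoImplicit false
open Set Filter Topology Function

namespace Pool.Agent.H.MP_15aca8

abbrev Dat : Type := ℝ × Bool × (Σ k : ℕ, Fin k → ℕ)

inductive Pt : Type
  | mk (t : ℕ ⊕ Option Bool) (d : ℕ → Dat) (pts : (n : ℕ) → Fin (d n).2.2.1 → Pt) : Pt

abbrev Lb : Type := Σ d : Dat, Fin d.2.2.1 → Pt

def tag : Pt → ℕ ⊕ Option Bool
  | .mk t _ _ => t

def lab : Pt → ℕ → Lb
  | .mk _ d pts => fun n => ⟨d n, pts n⟩

def mkP (t : ℕ ⊕ Option Bool) (σ : ℕ → Lb) : Pt := .mk t (fun n => (σ n).1) fun n => (σ n).2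

theorem pt_ext {y z : Pt} (h1 : tag y = tag z) (h2 : lab y = lab z) : y = z := by
  have : ∀ y, y = mkP (tag y) (lab y) := fun y => by cases y; rfl
  rw [this y, h1, h2, ← this z]

theorem pt_ind {P : Pt → Prop} (h : ∀ y, (∀ n i, P ((lab y n).2 i)) → P y) (y : Pt) : P y := by
  induction y with
  | mk t d pts ih => exact h _ ih

def cn (σ : ℕ → Lb) (n : ℕ) : Set Pt :=
  {y | (∀ k < n, lab y k = σ k) ∧ ∀ k, tag y = .inl k → n ≤ k}

def U : Pt → ℕ → Set Pt
  | .mk t d pts => fun m => {z | z = .mk t d pts ∨ ∃ n, m ≤ n ∧ t = .inr (some (d n).2.1) ∧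
      ((∃ i, z ∈ U (pts n i) ((d n).2.2.2 i)) ∧ z ∈ cn (fun n => ⟨d n, pts n⟩) n) ∧
      z ∉ cn (fun n => ⟨d n, pts n⟩) (n + 1)}

def Wl (l : Lb) : Set Pt := ⋃ i, U (l.2 i) (l.1.2.2.2 i)

def pc (σ : ℕ → Lb) (n : ℕ) : Set Pt := (Wl (σ n) ∩ cn σ n) \ cn σ (n + 1)

theorem mem_U {y z : Pt} {m : ℕ} : z ∈ U y m ↔ z = y ∨ ∃ n, m ≤ n ∧
    tag y = .inr (some (lab y n).1.2.1) ∧ z ∈ pc (lab y) n := by
  cases y
  simp only [U, pc, Wl, mem_ofPred_eq, Set.mem_sdiff, mem_inter_iff, mem_iUnion]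
  rfl

theorem self_U (y : Pt) (m : ℕ) : y ∈ U y m := mem_U.2 (Or.inl rfl)

theorem U_anti (y : Pt) : Antitone (U y) := fun _ _ h _ hz =>
  mem_U.2 ((mem_U.1 hz).imp_right fun ⟨n, h1, h2⟩ => ⟨n, h.trans h1, h2⟩)

theorem cn_anti (σ : ℕ → Lb) : Antitone (cn σ) := fun _ _ h _ hz =>
  ⟨fun k hk => hz.1 k (hk.trans_le h), fun k hk => h.trans (hz.2 k hk)⟩

theorem cn_congr {σ τ : ℕ → Lb} {n : ℕ} (h : ∀ k < n, σ k = τ k) : cn σ n = cn τ n := by
  ext z
  exact and_congr_left fun _ => forall₂_congr fun k hk => by rw [h k hk]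

theorem U_inl {y z : Pt} {k m : ℕ} (h : tag y = .inl k) (hz : z ∈ U y m) : z = y := by
  rcases mem_U.1 hz with e | ⟨n, -, e, -⟩
  · exact e
  · simp [h] at e

theorem self_cn {y : Pt} {j : Option Bool} (h : tag y = .inr j) (n : ℕ) : y ∈ cn (lab y) n :=
  ⟨fun _ _ => rfl, fun k hk => by simp [h] at hk⟩

theorem U_cn {y : Pt} {j : Option Bool} (h : tag y = .inr j) (n : ℕ) : U y n ⊆ cn (lab y) n := by
  intro z hz
  rcases mem_U.1 hz with rfl | ⟨k, h1, -, h2⟩
  · exact self_cn h n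
  · exact cn_anti _ h1 h2.1.2

theorem pc_eq {σ : ℕ → Lb} {a b : ℕ} {z : Pt} (ha : z ∈ pc σ a) (hb : z ∈ pc σ b) : a = b := by
  rcases lt_trichotomy a b with e | e | e
  · exact absurd (cn_anti σ e hb.1.2) ha.2
  · exact e
  · exact absurd (cn_anti σ e ha.1.2) hb.2

instance : TopologicalSpace Pt where
  IsOpen V := ∀ y ∈ V, ∃ m, U y m ⊆ V
  isOpen_univ _ _ := ⟨0, subset_univ _⟩
  isOpen_inter s t hs ht y hy := by
    obtain ⟨a, ha⟩ := hs y hy.1
    obtain ⟨b, hb⟩ := ht y hy.2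
    exact ⟨max a b, subset_inter ((U_anti y (le_max_left _ _)).trans ha)
      ((U_anti y (le_max_right _ _)).trans hb)⟩
  isOpen_sUnion s hs y := fun ⟨t, ht, hy⟩ =>
    (hs t ht y hy).imp fun _ h => h.trans (subset_sUnion_of_mem ht)

theorem open_iff {V : Set Pt} : IsOpen V ↔ ∀ y ∈ V, ∃ m, U y m ⊆ V := Iff.rfl

theorem clopen_cn (σ : ℕ → Lb) (n : ℕ) : IsClopen (cn σ n) := by
  refine ⟨isOpen_compl_iff.1 (open_iff.2 fun y hy => ⟨n, fun z hz => ?_⟩),
    open_iff.2 fun y hy => ⟨n, fun z hz => ?_⟩⟩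
  · rcases e : tag y with k | j
    · exact U_inl e hz ▸ hy
    · exact fun h => hy ⟨fun k hk => ((U_cn e n hz).1 k hk).symm.trans (h.1 k hk),
        (self_cn e n).2⟩
  · rcases e : tag y with k | j
    · exact U_inl e hz ▸ hy
    · exact cn_congr hy.1 ▸ U_cn e n hz

theorem U_disj {y z : Pt} {j j' : Option Bool} (h1 : tag y = .inr j) (h2 : tag z = .inr j')
    (h3 : lab y = lab z) (h : y ≠ z) (a b : ℕ) : Disjoint (U y a) (U z b) := by
  refine disjoint_left.2 fun w w1 w2 => ?_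
  rcases mem_U.1 w1 with rfl | ⟨n, -, e1, e2⟩
  · rcases mem_U.1 w2 with e | ⟨n', -, -, e4⟩
    · exact h e
    · exact e4.2 (h3 ▸ self_cn h1 _)
  · rcases mem_U.1 w2 with rfl | ⟨n', -, e3, e4⟩
    · exact e2.2 (h3 ▸ self_cn h2 _)
    · obtain rfl := pc_eq e2 (h3 ▸ e4)
      exact h (pt_ext (by rw [e1, e3, h3]) h3)

theorem clopen_U (y : Pt) : ∀ m, IsClopen (U y m) := by
  induction y using pt_ind with | h y ih => ?_
  have hp : ∀ n, IsClopen (pc (lab y) n) := fun n =>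
    ((isClopen_iUnion_of_finite fun i => ih n i _).inter (clopen_cn _ _)).diff (clopen_cn _ _)
  refine fun m => ⟨isOpen_compl_iff.1 (open_iff.2 fun z hz => ?_), open_iff.2 fun z hz => ?_⟩
  · rcases e : tag z with k | j
    · exact ⟨0, fun w hw => U_inl e hw ▸ hz⟩
    rcases e' : tag y with k | j'
    · refine ⟨k + 1, fun w hw h => ?_⟩
      have := (U_cn e _ hw).2 k (U_inl e' h ▸ e')
      omega
    by_cases h : lab z = lab y
    · exact ⟨0, disjoint_left.1 (U_disj e e' h (by rintro rfl; exact hz (self_U _ _)) 0 m)⟩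
    obtain ⟨n, hn⟩ := ne_iff.1 h
    have hc : IsClosed (cn (lab y) (n + 1) ∪ ⋃ k ∈ {k | k ≤ n ∧ m ≤ k ∧
        tag y = .inr (some (lab y k).1.2.1)}, pc (lab y) k) :=
      (clopen_cn _ _).1.union (((finite_Iic n).subset fun k hk => hk.1).isClosed_biUnion
        fun k _ => (hp k).1)
    obtain ⟨k, hk⟩ := open_iff.1 hc.isOpen_compl z (by
      rintro (a | a)
      · exact hn (a.1 n (Nat.lt_succ_self n))
      · obtain ⟨k, a1, a2⟩ := mem_iUnion₂.1 a
        exact hz (mem_U.2 (Or.inr ⟨k, a1.2.1, a1.2.2, a2⟩)))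
    refine ⟨k, fun w hw a => hk hw ?_⟩
    rcases mem_U.1 a with rfl | ⟨k, a1, a2, a3⟩
    · exact Or.inl (self_cn e' _)
    · rcases le_or_gt k n with b | b
      · exact Or.inr (mem_iUnion₂.2 ⟨k, ⟨b, a1, a2⟩, a3⟩)
      · exact Or.inl (cn_anti _ b a3.1.2)
  · rcases mem_U.1 hz with rfl | ⟨n, h1, h2, h3⟩
    · exact ⟨m, subset_rfl⟩
    · exact (open_iff.1 (hp n).2 z h3).imp fun k hk w hw => mem_U.2 (Or.inr ⟨n, h1, h2, hk hw⟩)

theorem clopen_pc (σ : ℕ → Lb) (n : ℕ) : IsClopen (pc σ n) :=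
  ((isClopen_iUnion_of_finite fun _ => clopen_U _ _).inter (clopen_cn _ _)).diff (clopen_cn _ _)

theorem U_nhds (y : Pt) (m : ℕ) : U y m ∈ 𝓝 y := (clopen_U y m).2.mem_nhds (self_U y m)

theorem nhds_U {y : Pt} {s : Set Pt} (h : s ∈ 𝓝 y) : ∃ m, U y m ⊆ s := by
  obtain ⟨t, h1, h2, h3⟩ := mem_nhds_iff.1 h
  exact (open_iff.1 h2 y h3).imp fun m hm => hm.trans h1

theorem count_U (y : Pt) : ∀ m, (U y m).Countable := by
  induction y using pt_ind with | h y ih => ?_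
  refine fun m => ((countable_singleton y).union (countable_iUnion fun n =>
    countable_iUnion fun i => ih n i ((lab y n).1.2.2.2 i))).mono fun z hz => ?_
  rcases mem_U.1 hz with rfl | ⟨n, -, -, h3⟩
  · exact Or.inl rfl
  · exact Or.inr (mem_iUnion.2 ⟨n, h3.1.1⟩)

theorem compact_U (y : Pt) : ∀ m, IsCompact (U y m) := by
  induction y using pt_ind with | h y ih => ?_
  refine fun m => isCompact_iff_ultrafilter_le_nhds'.2 fun f hf => ?_
  by_cases h : ∀ k, U y k ∈ f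
  · exact ⟨y, self_U y m, fun s hs => by
      obtain ⟨k, hk⟩ := nhds_U hs
      exact mem_of_superset (h k) hk⟩
  push Not at h
  obtain ⟨k, hk⟩ := h
  have hc : IsCompact ((⋃ n ∈ Iio k, Wl (lab y n)) ∩ U y m) :=
    ((finite_Iio k).isCompact_biUnion fun n _ => isCompact_iUnion fun i => ih n i _).inter_right
      (clopen_U y m).1
  obtain ⟨x, h1, h2⟩ := isCompact_iff_ultrafilter_le_nhds'.1 hc f (by
    filter_upwards [hf, Ultrafilter.compl_mem_iff_notMem.2 hk] with z z1 z2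
    refine ⟨?_, z1⟩
    rcases mem_U.1 z1 with rfl | ⟨n, a1, a2, a3⟩
    · exact absurd (self_U _ _) z2
    · refine mem_iUnion₂.2 ⟨n, ?_, a3.1.1⟩
      by_contra b
      exact z2 (mem_U.2 (Or.inr ⟨n, not_lt.1 b, a2, a3⟩)))
  exact ⟨x, h1.2, h2⟩

theorem compact_pc (σ : ℕ → Lb) (n : ℕ) : IsCompact (pc σ n) :=
  (isCompact_iUnion fun _ => compact_U _ _).of_isClosed_subset (clopen_pc σ n).1 fun _ h => h.1.1

instance : T2Space Pt := by
  refine ⟨fun y z h => ?_⟩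
  obtain ⟨m, hm⟩ : ∃ m, z ∉ U y m := by
    by_cases a : z ∈ U y 0
    · rcases mem_U.1 a with rfl | ⟨n, -, -, a3⟩
      · exact absurd rfl h
      · refine ⟨n + 1, fun b => ?_⟩
        rcases mem_U.1 b with rfl | ⟨n', b1, -, b3⟩
        · exact h rfl
        · have := pc_eq a3 b3
          omega
    · exact ⟨0, a⟩
  exact ⟨U y m, (U y m)ᶜ, (clopen_U y m).2, (clopen_U y m).1.isOpen_compl, self_U y m, hm,
    disjoint_compl_right⟩

instance : WeaklyLocallyCompactSpace Pt := ⟨fun y => ⟨U y 0, compact_U y 0, U_nhds y 0⟩⟩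

theorem count_compact {A : Set Pt} (h : IsCompact A) : A.Countable := by
  obtain ⟨t, -, h2⟩ := h.elim_nhds_subcover (fun y => U y 0) fun y _ => U_nhds y 0
  exact (t.countable_toSet.biUnion fun y _ => count_U y 0).mono h2

theorem fin_compact {A : Set Pt} (h : IsCompact A) (n : ℕ) :
    {y ∈ A | tag y = .inl n}.Finite := by
  obtain ⟨t, -, h2⟩ := h.elim_nhds_subcover (fun y => U y (n + 1)) fun y _ => U_nhds y _
  refine t.finite_toSet.subset fun z hz => ?_
  obtain ⟨y, y1, y2⟩ := mem_iUnion₂.1 (h2 hz.1)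
  rcases e : tag y with k | j
  · exact U_inl e y2 ▸ y1
  · have := (U_cn e _ y2).2 n hz.2
    omega

theorem scat_pt (S : Set Pt) (y : Pt) : ∀ m, (U y m ∩ S).Nonempty →
    ∃ x ∈ S, ∃ O, IsOpen O ∧ O ∩ S = {x} := by
  induction y using pt_ind with | h y ih => ?_
  intro m hm
  by_cases h : ∀ z ∈ U y m ∩ S, z = y
  · obtain ⟨z, hz⟩ := hm
    obtain rfl := h z hz
    exact ⟨z, hz.2, U z m, (clopen_U z m).2, eq_singleton_iff_unique_mem.2 ⟨hz, h⟩⟩
  · push Not at h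
    obtain ⟨z, h1, h2⟩ := h
    obtain ⟨n, -, -, a3⟩ := (mem_U.1 h1.1).resolve_left h2
    obtain ⟨i, hi⟩ := mem_iUnion.1 a3.1.1
    exact ih n i _ ⟨z, hi, h1.2⟩

abbrev KK : Type := OnePoint Pt

theorem scat (S : Set KK) (hS : S.Nonempty) : ∃ x ∈ S, ∃ O, IsOpen O ∧ O ∩ S = {x} := by
  by_cases h : ∃ y : Pt, (y : KK) ∈ S
  · obtain ⟨y, hy⟩ := h
    obtain ⟨x, x1, O, o1, o2⟩ := scat_pt (((↑) : Pt → KK) ⁻¹' S) y 0 ⟨y, self_U _ _, hy⟩
    refine ⟨x, x1, (↑) '' O, OnePoint.isOpenMap_coe _ o1, ?_⟩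
    rw [← image_inter_preimage, o2, image_singleton]
  · obtain ⟨x, hx⟩ := hS
    refine ⟨x, hx, univ, isOpen_univ, ?_⟩
    rw [univ_inter]
    refine eq_singleton_iff_unique_mem.2 ⟨hx, fun w hw => ?_⟩
    induction x using OnePoint.rec with
    | coe x => exact absurd ⟨x, hx⟩ h
    | infty =>
      induction w using OnePoint.rec with
      | coe w => exact absurd ⟨w, hw⟩ h
      | infty => rfl

theorem clopen_img {A : Set Pt} (h : IsClopen A) (hc : IsCompact A) :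
    IsClopen ((↑) '' A : Set KK) :=
  ⟨OnePoint.isClosed_image_coe.2 ⟨h.1, hc⟩, OnePoint.isOpenMap_coe _ h.2⟩

theorem compact_pre {A : Set KK} (h : IsClosed A) (h' : OnePoint.infty ∉ A) :
    IsCompact ((↑) ⁻¹' A : Set Pt) := by
  refine (OnePoint.isClosed_image_coe.1 ?_).2
  rwa [image_preimage_eq_of_subset]
  intro z hz
  induction z with
  | coe x => exact ⟨x, rfl⟩
  | infty => exact absurd hz h'

noncomputable def lad : Lad KK Lb where
  side l := l.1.2.1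
  cone σ n := (↑) '' cn σ n
  piece σ n := (↑) '' pc σ n
  V σ j n := (↑) '' U (mkP (.inr (some j)) σ) n
  cone_congr σ τ n h := by rw [cn_congr h]
  piece_congr σ τ n h := by
    rw [pc, pc, h n le_rfl, cn_congr fun k hk => h k hk.le,
      cn_congr fun k hk => h k (Nat.lt_succ_iff.1 hk)]
  cone_succ σ n := image_mono (cn_anti σ (Nat.le_succ n))
  piece_sub σ n := image_mono fun _ h => h.1.2
  piece_disj σ n := (disjoint_image_iff OnePoint.coe_injective).2 disjoint_sdiff_left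
  piece_clopen σ n := clopen_img (clopen_pc _ _) (compact_pc _ _)
  V_clopen σ j n := clopen_img (clopen_U _ _) (compact_U _ _)
  V_sub σ j n := image_mono (U_cn (y := mkP (.inr (some j)) σ) rfl n)
  V_succ σ j n z := by
    induction z using OnePoint.rec with
    | infty => simp
    | coe z =>
      simp only [OnePoint.coe_injective.mem_set_image, mem_U]
      change (_ ∨ ∃ k, n ≤ k ∧ Sum.inr (some j) = Sum.inr (some (σ k).1.2.1) ∧ z ∈ pc σ k) ↔
        _ ∨ _ ∨ ∃ k, n + 1 ≤ k ∧ Sum.inr (some j) = Sum.inr (some (σ k).1.2.1) ∧ z ∈ pc σ k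
      simp only [Sum.inr.injEq, Option.some.injEq]
      constructor
      · rintro (h | ⟨k, h1, h2, h3⟩)
        · exact Or.inr (Or.inl h)
        · rcases h1.eq_or_lt with rfl | e
          · exact Or.inl ⟨h2.symm, h3⟩
          · exact Or.inr (Or.inr ⟨k, e, h2, h3⟩)
      · rintro (⟨h1, h2⟩ | h | ⟨k, h1, h2⟩)
        · exact Or.inr ⟨n, le_rfl, h1.symm, h2⟩
        · exact Or.inl h
        · exact Or.inr ⟨k, (Nat.le_succ n).trans h1, h2⟩
  V_disj σ n := (disjoint_image_iff OnePoint.coe_injective).2 (U_disj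
    (y := mkP (.inr (some false)) σ) (z := mkP (.inr (some true)) σ) rfl rfl rfl
    (fun h => by
      have e : (Sum.inr (some false) : ℕ ⊕ Option Bool) = Sum.inr (some true) := congrArg tag h
      simp at e) n n)
  real σ n W j h1 h2 := by
    have hc := compact_pre h1.1 fun h => by simpa using h2 h
    have ho : ∀ y : Pt, ∃ m, (y : KK) ∈ W → U y m ⊆ (↑) ⁻¹' W := fun y => by
      by_cases h : (y : KK) ∈ W
      · exact (open_iff.1 (h1.2.preimage OnePoint.continuous_coe) y h).imp fun _ a _ => a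
      · exact ⟨0, fun a => absurd a h⟩
    choose m hm using ho
    obtain ⟨t, t1, t2⟩ := hc.elim_nhds_subcover (fun y => U y (m y)) fun y _ => U_nhds y _
    let l : ℝ → Lb := fun a =>
      ⟨(a, j, ⟨t.card, fun i => m (t.equivFin.symm i)⟩), fun i => t.equivFin.symm i⟩
    have hW : ∀ a, Wl (l a) = (↑) ⁻¹' W := fun a => by
      refine subset_antisymm (iUnion_subset fun i => hm _ (t1 _ (t.equivFin.symm i).2))
        fun z hz => ?_
      obtain ⟨y, y1, y2⟩ := mem_iUnion₂.1 (t2 hz)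
      exact mem_iUnion.2 ⟨t.equivFin ⟨y, y1⟩, by simpa [l] using y2⟩
    have hl : ∀ a z, z ∈ cn (update σ n (l a)) (n + 1) → (lab z n).1.1 = a := fun a z hz => by
      rw [hz.1 n (Nat.lt_succ_self n), update_self]
    refine ⟨l, fun a b hab => (disjoint_image_iff OnePoint.coe_injective).2
      (disjoint_left.2 fun z z1 z2 => hab ((hl a z z1).symm.trans (hl b z z2))), fun _ => rfl,
      ((count_compact hc).image fun z => (lab z n).1.1).mono fun a ha => ?_⟩
    by_contra hn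
    refine ha ?_
    have : pc (update σ n (l a)) n = (↑) ⁻¹' W := by
      rw [pc, update_self, hW, cn_congr fun k hk => update_of_ne hk.ne _ _]
      refine subset_antisymm (fun z hz => hz.1.1) fun z hz => ⟨⟨hz, ?_⟩, fun b => hn ⟨z, hz, hl a z b⟩⟩
      exact OnePoint.coe_injective.mem_set_image.1 (h2 hz)
    rw [this, image_preimage_eq_of_subset (h2.trans (image_subset_range _ _))]

instance : Nonempty Lb := ⟨⟨(0, false, ⟨0, fun _ => 0⟩), fun i => i.elim0⟩⟩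

theorem iso_E (σ : ℕ → Lb) : ∃ y : Pt, IsClopen {(y : KK)} ∧ ∀ n, {(y : KK)} ⊆ lad.cone σ n := by
  have e : U (mkP (.inr none) σ) 0 = {mkP (.inr none) σ} := by
    refine eq_singleton_iff_unique_mem.2 ⟨self_U _ _, fun z hz => ?_⟩
    rcases mem_U.1 hz with e | ⟨n, -, e, -⟩
    · exact e
    · simp [mkP, tag] at e
  refine ⟨mkP (.inr none) σ, ?_, fun n => singleton_subset_iff.2
    (mem_image_of_mem ((↑) : Pt → KK) (self_cn (y := mkP (.inr none) σ) rfl n))⟩
  rw [← image_singleton, ← e]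
  exact clopen_img (clopen_U _ _) (compact_U _ _)

theorem iso_D (σ : ℕ → Lb) (n : ℕ) : ∃ y : Pt, tag y = .inl n ∧ IsClopen {(y : KK)} ∧
    {(y : KK)} ⊆ lad.cone σ n := by
  have e : U (mkP (.inl n) σ) 0 = {mkP (.inl n) σ} :=
    eq_singleton_iff_unique_mem.2 ⟨self_U _ _, fun z hz => U_inl rfl hz⟩
  refine ⟨mkP (.inl n) σ, rfl, ?_, singleton_subset_iff.2
    (mem_image_of_mem ((↑) : Pt → KK) (show mkP (.inl n) σ ∈ cn σ n from
      ⟨fun _ _ => rfl, fun k hk => (Sum.inl.inj hk).le⟩))⟩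
  rw [← image_singleton, ← e]
  exact clopen_img (clopen_U _ _) (compact_U _ _)

end Pool.Agent.H.MP_15aca8
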