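import Pool.Agent.H.MP_15aca8.D

set_option autoImplicit false
open Set Filter Topology Function MeasureTheory CompactlySupported

namespace Pool.Agent.H.MP_15aca8

theorem sepd {K Z : Type} [TopologicalSpace K] [CompactSpace K] [T2Space K]
    [NormedAddCommGroup Z] [NormedSpace ℝ Z] (j : Z →L[ℝ] C(K, ℝ))
    (hs : ∀ z, ‖z‖ ≤ ‖j z ⊔ 0‖) (hi : Function.Injective j)
    (hc : (range fun k : K => (ContinuousMap.evalCLM ℝ k).comp j).Countable) :
    TopologicalSpace.SeparableSpace (StrongDual ℝ Z) := by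
  let Δ : K → StrongDual ℝ Z := fun k => (ContinuousMap.evalCLM ℝ k).comp j
  rw [← TopologicalSpace.isSeparable_univ_iff]
  refine (hc.isSeparable.span (R := ℝ)).closure.mono fun φ _ => ?_
  let e := LinearEquiv.ofInjective j.toLinearMap hi
  obtain ⟨g, g1, g2⟩ := exists_extension_of_le_sublinear
    (⟨LinearMap.range j.toLinearMap, φ.toLinearMap.comp e.symm.toLinearMap⟩ : C(K, ℝ) →ₗ.[ℝ] ℝ)
    (fun f => ‖φ‖ * ‖f ⊔ 0‖) (fun c hc f => by
      have : (c • f) ⊔ 0 = c • (f ⊔ 0) := by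
        ext k
        simp [mul_max_of_nonneg _ _ hc.le]
      rw [this, norm_smul, Real.norm_of_nonneg hc.le]; ring) (fun f f' => by
      rw [← mul_add]
      refine mul_le_mul_of_nonneg_left ((ContinuousMap.norm_le _ (by positivity)).2 fun k => ?_)
        (norm_nonneg _)
      have a1 := (f ⊔ 0).norm_coe_le_norm k
      have a2 := (f' ⊔ 0).norm_coe_le_norm k
      simp only [ContinuousMap.sup_apply, ContinuousMap.zero_apply, ContinuousMap.add_apply,
        Real.norm_eq_abs] at a1 a2 ⊢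
      rw [abs_of_nonneg (le_max_right _ _)] at a1 a2 ⊢
      exact max_le (add_le_add (le_of_max_le_left a1) (le_of_max_le_left a2)) (by positivity))
    (fun x => by
      obtain ⟨z, rfl⟩ := e.surjective x
      change φ (e.symm (e z)) ≤ ‖φ‖ * ‖j z ⊔ 0‖
      rw [e.symm_apply_apply]
      exact (le_abs_self _).trans ((φ.le_opNorm z).trans
        (mul_le_mul_of_nonneg_left (hs z) (norm_nonneg _))))
  have g3 : ∀ z, g (j z) = φ z := fun z => (g1 (e z)).trans (congrArg φ (e.symm_apply_apply z))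
  let Λ : C_c(K, ℝ) →ₚ[ℝ] ℝ := PositiveLinearMap.mk₀
    { toFun := fun f => g f.toContinuousMap
      map_add' := fun a b => g.map_add _ _
      map_smul' := fun c a => g.map_smul _ _ } fun f hf => by
      have a1 := g2 (-f.toContinuousMap)
      have a2 : -f.toContinuousMap ⊔ 0 = 0 := sup_eq_right.2 fun k => neg_nonpos.2 (hf k)
      rw [a2, norm_zero, mul_zero, map_neg] at a1
      exact neg_nonpos.1 a1
  borelize K
  borelize (StrongDual ℝ Z)
  let μ := RealRMK.rieszMeasure Λ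
  have hm : StronglyMeasurable Δ := by
    refine stronglyMeasurable_iff_measurable_separable.2 ⟨fun U _ => ?_, hc.isSeparable⟩
    have : Δ ⁻¹' U = ⋃ d ∈ range Δ ∩ U, ⋂ z, {k | j z k = d z} := by
      ext k
      simp only [mem_preimage, mem_iUnion, mem_iInter, mem_ofPred_eq]
      exact ⟨fun h => ⟨_, ⟨⟨k, rfl⟩, h⟩, fun _ => rfl⟩, fun ⟨d, h1, h2⟩ =>
        (ContinuousLinearMap.ext h2 : Δ k = d) ▸ h1.2⟩
    rw [this]
    exact MeasurableSet.biUnion (hc.mono inter_subset_left) fun d _ =>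
      (isClosed_iInter fun z => isClosed_eq (j z).continuous continuous_const).measurableSet
  have hI : Integrable Δ μ := Integrable.of_bound hm.aestronglyMeasurable ‖j‖ (.of_forall fun k =>
    ContinuousLinearMap.opNorm_le_bound _ j.opNorm_nonneg fun z =>
      ((j z).norm_coe_le_norm k).trans (j.le_opNorm z))
  have he : φ = ∫ k, Δ k ∂μ := ContinuousLinearMap.ext fun z => by
    rw [ContinuousLinearMap.integral_apply hI, ← g3]
    exact (RealRMK.integral_rieszMeasure Λ
      (CompactlySupportedContinuousMap.continuousMapEquiv (j z))).symm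
  rw [he]
  change _ ∈ (Submodule.span ℝ (range Δ)).topologicalClosure
  rcases eq_zero_or_neZero μ with h0 | h0
  · rw [h0, integral_zero_measure]; exact zero_mem _
  · rw [← measure_smul_average]
    exact Submodule.smul_mem _ _ ((Submodule.span ℝ (range Δ)).topologicalClosure.convex.average_mem
      (Submodule.isClosed_topologicalClosure _) (.of_forall fun k =>
        Submodule.le_topologicalClosure _ (Submodule.subset_span ⟨k, rfl⟩)) hI)

theorem asplund {K : Type} [TopologicalSpace K] [CompactSpace K] [T2Space K] (o : K)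
    (h : ∀ A : Set K, IsClosed A → o ∉ A → A.Countable) (Z : Submodule ℝ C(K, ℝ))
    (hZ : TopologicalSpace.SeparableSpace Z) : TopologicalSpace.SeparableSpace (Z →L[ℝ] ℝ) := by
  let j0 : C(K, ℝ) →L[ℝ] C(K ⊕ K, ℝ) := LinearMap.mkContinuous
    { toFun := fun f => ⟨Sum.elim f (-f), f.continuous.sumElim (-f).continuous⟩
      map_add' := fun f g => by ext (k | k) <;> simp [add_comm]
      map_smul' := fun c f => by ext (k | k) <;> simp } 1 fun f => by
    rw [one_mul]
    refine (ContinuousMap.norm_le _ (norm_nonneg _)).2 ?_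
    rintro (k | k)
    · exact f.norm_coe_le_norm k
    · simpa using f.norm_coe_le_norm k
  have e1 : ∀ f k, j0 f (.inl k) = f k := fun _ _ => rfl
  have e2 : ∀ f k, j0 f (.inr k) = -f k := fun _ _ => rfl
  refine sepd (Z := Z) (j0.comp Z.subtypeL) (fun z => ?_) (fun a b e => Subtype.ext ?_) ?_
  · refine (ContinuousMap.norm_le z.1 (norm_nonneg _)).2 fun k => ?_
    have a1 := (j0 z.1 ⊔ 0).norm_coe_le_norm (.inl k)
    have a2 := (j0 z.1 ⊔ 0).norm_coe_le_norm (.inr k)
    simp only [ContinuousMap.sup_apply, ContinuousMap.zero_apply, Real.norm_eq_abs, e1, e2] at a1 a2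
    rw [abs_of_nonneg (le_max_right _ _)] at a1 a2
    change |z.1 k| ≤ ‖j0 z.1 ⊔ 0‖
    exact abs_le.2 ⟨by linarith [le_of_max_le_left a2], le_of_max_le_left a1⟩
  · ext k
    exact DFunLike.congr_fun e (.inl k)
  · obtain ⟨D, D1, D2⟩ := TopologicalSpace.exists_countable_dense Z
    have c1 : ∀ f : C(K, ℝ), {k | f k ≠ f o}.Countable := fun f => by
      refine (countable_iUnion fun n : ℕ => h {k | 1 / ((n : ℝ) + 1) ≤ |f k - f o|}
        (isClosed_le continuous_const (by fun_prop)) ?_).mono fun k hk => ?_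
      · simp only [mem_ofPred_eq, sub_self, abs_zero, not_le]
        positivity
      · obtain ⟨n, hn⟩ := exists_nat_one_div_lt (abs_pos.2 (sub_ne_zero.2 hk))
        exact mem_iUnion.2 ⟨n, hn.le⟩
    have c2 := (D1.biUnion fun z _ => c1 z.1).insert o
    have c3 : ∀ k, ∃ k' ∈ insert o (⋃ z ∈ D, {k | z.1 k ≠ z.1 o}), ∀ z : Z, z.1 k = z.1 k' := by
      intro k
      by_cases a : k ∈ ⋃ z ∈ D, {k | z.1 k ≠ z.1 o}
      · exact ⟨k, Or.inr a, fun _ => rfl⟩
      · refine ⟨o, Or.inl rfl, fun z => ?_⟩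
        refine D2.induction (P := fun z : Z => z.1 k = z.1 o) (fun w hw => ?_)
          (isClosed_eq (by fun_prop) (by fun_prop)) z
        by_contra b
        exact a (mem_iUnion₂.2 ⟨w, hw, b⟩)
    refine (((c2.image Sum.inl).union (c2.image Sum.inr)).image fun k : K ⊕ K =>
      (ContinuousMap.evalCLM ℝ k).comp (j0.comp Z.subtypeL)).mono ?_
    rintro _ ⟨k | k, rfl⟩
    · obtain ⟨k', k1, k2⟩ := c3 k
      exact ⟨.inl k', Or.inl ⟨k', k1, rfl⟩, ContinuousLinearMap.ext fun z => (k2 z).symm⟩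
    · obtain ⟨k', k1, k2⟩ := c3 k
      exact ⟨.inr k', Or.inr ⟨k', k1, rfl⟩, ContinuousLinearMap.ext fun z =>
        congrArg Neg.neg (k2 z).symm⟩

theorem count_closed (A : Set KK) (h : IsClosed A) (h' : OnePoint.infty ∉ A) : A.Countable := by
  refine ((count_compact (compact_pre h h')).image (↑)).mono fun z hz => ?_
  induction z using OnePoint.rec with
  | coe x => exact ⟨x, hz, rfl⟩
  | infty => exact absurd hz h'

/-- Main statement for continuous norms on the whole space. -/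
theorem whole (p : Seminorm ℝ C(KK, ℝ)) {C : ℝ} (hp : ∀ x, p x ≤ C * ‖x‖) (hC : 0 ≤ C)
    (h0 : ∀ x, p x = 0 → x = 0) : ∃ a > 0, ∃ x, 0 < p x ∧
      (∀ δ > 0, ∃ (h : C(KK, ℝ)) (τ : ℝ), 0 < τ ∧ τ ≤ δ ∧ ‖h‖ ≤ 4 ∧
        p (x + τ • h) ≤ p x - a / 2 * τ ∧ ∀ t : ℝ, p x - δ ≤ p (x + t • h)) ∧
      ¬ ∃ φ : C(KK, ℝ) →L[ℝ] ℝ, ∀ h, HasDerivAt (fun t : ℝ => p (x + t • h)) (φ h) 0 := by
  obtain ⟨a, ha, σ0, n0, hl⟩ := lad.lower (p := p) fun σ => by
    obtain ⟨y, y1, y2⟩ := iso_E σ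
    refine ⟨_, y1, y2, (apply_nonneg p _).lt_of_ne' fun e => ?_⟩
    have := ind_mem y1 (mem_singleton _)
    rw [h0 _ e] at this
    simp at this
  exact ⟨a, ha, lad.main hp hC ha σ0 n0 hl⟩

/-- The closure of the level points together with the point at infinity. -/
def K1 : Set KK := closure (insert OnePoint.infty ((↑) '' {y : Pt | ∃ n, tag y = .inl n}))

instance : CompactSpace K1 := isCompact_iff_compactSpace.1 isClosed_closure.isCompact

def o1 : K1 := ⟨OnePoint.infty, subset_closure (Or.inl rfl)⟩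

theorem closed_img {A : Set K1} (h : IsClosed A) : IsClosed ((↑) '' A : Set KK) :=
  (isClosed_closure.isClosedMap_subtype_val) _ h

theorem count1 (A : Set K1) (h : IsClosed A) (h' : o1 ∉ A) : A.Countable :=
  (count_closed _ (closed_img h) fun ⟨z, h1, h2⟩ =>
    h' ((Subtype.ext h2 : z = o1) ▸ h1)).preimage_of_injOn Subtype.val_injective.injOn |>.mono
      (subset_preimage_image _ _)

theorem scat1 (S : Set K1) (hS : S.Nonempty) : ∃ x ∈ S, ∃ O, IsOpen O ∧ O ∩ S = {x} := by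
  obtain ⟨_, ⟨x, hx, rfl⟩, O, o1, o2⟩ := scat _ (hS.image Subtype.val)
  refine ⟨x, hx, (↑) ⁻¹' O, o1.preimage continuous_subtype_val, ?_⟩
  apply Subtype.val_injective.image_injective
  rw [image_singleton, ← o2, image_preimage_inter]

theorem nog1 (N : C(K1, ℝ) → ℝ) (h1 : ∀ f g, N (f + g) ≤ N f + N g)
    (h2 : ∀ (a : ℝ) f, N (a • f) = |a| * N f) {c C : ℝ} (hc : 0 < c)
    (h3 : ∀ f, c * ‖f‖ ≤ N f ∧ N f ≤ C * ‖f‖) : ∃ f, f ≠ 0 ∧
      ¬ ∃ φ : C(K1, ℝ) →L[ℝ] ℝ, ∀ h, HasDerivAt (fun t : ℝ => N (f + t • h)) (φ h) 0 := by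
  let R : C(KK, ℝ) →L[ℝ] C(K1, ℝ) := LinearMap.mkContinuous
    { toFun := fun f => f.restrict K1
      map_add' := fun _ _ => rfl
      map_smul' := fun _ _ => rfl } 1 fun f => by
    rw [one_mul]
    exact (ContinuousMap.norm_le _ (norm_nonneg _)).2 fun k => f.norm_coe_le_norm k.1
  have hR : ∀ f, ‖R f‖ ≤ ‖f‖ := fun f =>
    (ContinuousMap.norm_le _ (norm_nonneg _)).2 fun k => f.norm_coe_le_norm k.1
  let p : Seminorm ℝ C(KK, ℝ) := (Seminorm.of N h1 h2).comp R.toLinearMap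
  have hp : ∀ x, p x ≤ |C| * ‖x‖ := fun x => (h3 _).2.trans
    (mul_le_mul (le_abs_self C) (hR x) (norm_nonneg _) (abs_nonneg C))
  obtain ⟨x, x1, -, x2⟩ := lad.main hp (abs_nonneg C) (a := c / 4) (by positivity)
    (Classical.arbitrary _) 0 fun σ n _ _ => by
      obtain ⟨y, y0, y1, y2⟩ := iso_D σ n
      refine ⟨_, y1, y2, le_trans ?_ (h3 _).1⟩
      have a := (R (ind {(y : KK)})).norm_coe_le_norm
        ⟨y, subset_closure (Or.inr ⟨y, ⟨n, y0⟩, rfl⟩)⟩
      change ‖ind {(y : KK)} (y : KK)‖ ≤ _ at a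
      rw [ind_mem y1 (mem_singleton _), norm_one] at a
      change _ ≤ c * ‖R (ind {(y : KK)})‖
      nlinarith
  refine ⟨R x, fun e => ?_, fun ⟨φ, hφ⟩ => x2 ⟨φ.comp R, fun h => ?_⟩⟩
  · change 0 < N (R x) at x1
    have := h2 0 0
    rw [e] at x1
    simp at this
    linarith
  · convert hφ (R h) using 2 with t
    · change N (R _) = _
      rw [map_add, map_smul]
    · rfl

/-- The weight of a point. -/
noncomputable def wt (z : KK) : ℝ :=
  z.rec 0 fun y => (tag y).elim (fun n : ℕ => 1 / ((n : ℝ) + 1)) fun _ => 0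

noncomputable def fn : Option K1 → C(K1, ℝ) →L[ℝ] ℝ
  | none => ContinuousMap.evalCLM ℝ o1
  | some z => wt z • (ContinuousMap.evalCLM ℝ z - ContinuousMap.evalCLM ℝ o1)

theorem wt_cases (z : KK) : wt z = 0 ∨ ∃ (y : Pt) (n : ℕ), z = y ∧ tag y = .inl n ∧
    wt z = 1 / ((n : ℝ) + 1) := by
  induction z using OnePoint.rec with
  | infty => exact Or.inl rfl
  | coe y =>
    rcases e : tag y with n | j
    · exact Or.inr ⟨y, n, rfl, e, by change (tag y).elim _ _ = _; rw [e]; rfl⟩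
    · exact Or.inl (by change (tag y).elim _ _ = _; rw [e]; rfl)

theorem fn_bd (γ : Option K1) (x : C(K1, ℝ)) : |fn γ x| ≤ 2 * ‖x‖ := by
  have a : ∀ z, |x z| ≤ ‖x‖ := x.norm_coe_le_norm
  rcases γ with _ | z
  · exact (a o1).trans (by linarith [norm_nonneg x])
  · change |wt z * (x z - x o1)| ≤ _
    rw [abs_mul]
    have b : |wt z| ≤ 1 := by
      rcases wt_cases z with e | ⟨y, n, -, -, e⟩ <;> rw [e]
      · simp
      · rw [abs_of_nonneg (by positivity), div_le_one (by positivity)]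
        linarith [(Nat.cast_nonneg n : (0 : ℝ) ≤ n)]
    exact (mul_le_of_le_one_left (abs_nonneg _) b).trans
      ((abs_sub _ _).trans (by linarith [a z, a o1]))

theorem fn_fin (x : C(K1, ℝ)) {ε : ℝ} (hε : 0 < ε) : {γ | ε ≤ |fn γ x|}.Finite := by
  obtain ⟨M, hM⟩ := exists_nat_gt (2 * ‖x‖ / ε)
  have hc := compact_pre (closed_img (A := {z | ε ≤ |x z - x o1|})
    (isClosed_le continuous_const (by fun_prop))) fun ⟨z, h1, h2⟩ => by
      rw [(Subtype.ext h2 : z = o1)] at h1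
      simp only [mem_ofPred_eq, sub_self, abs_zero] at h1
      linarith
  have hf := (((finite_Iio M).biUnion fun n _ => fin_compact hc n).image
    ((↑) : Pt → KK)).preimage (Subtype.val_injective (p := (· ∈ K1))).injOn
  refine ((hf.image some).insert none).subset ?_
  rintro (_ | z) hz
  · exact Or.inl rfl
  refine Or.inr ⟨z, ?_, rfl⟩
  change ε ≤ |wt z * (x z - x o1)| at hz
  rcases wt_cases z with e | ⟨y, n, e1, e2, e⟩ <;> rw [e] at hz
  · simp at hz
    linarith
  rw [abs_mul, abs_of_nonneg (by positivity), one_div_mul_eq_div, le_div_iff₀ (by positivity)] at hz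
  have a : ∀ z, |x z| ≤ ‖x‖ := x.norm_coe_le_norm
  have b := (abs_sub (x z) (x o1)).trans (add_le_add (a z) (a o1))
  have c : (0 : ℝ) ≤ n := Nat.cast_nonneg n
  rw [div_lt_iff₀ hε] at hM
  refine ⟨y, mem_iUnion₂.2 ⟨n, ?_, ⟨z, ?_, e1⟩, e2⟩, e1.symm⟩
  · have : (n : ℝ) < M := by nlinarith
    exact_mod_cast this
  · change ε ≤ _
    nlinarith

theorem fn_inj (x : C(K1, ℝ)) (h : ∀ γ, fn γ x = 0) : x = 0 := by
  have h0 : x o1 = 0 := h none
  ext z
  have : z.1 ∈ (↑) '' {z : K1 | x z = 0} := by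
    refine closure_minimal ?_ (closed_img (isClosed_eq x.continuous continuous_const)) z.2
    rintro w (rfl | ⟨y, ⟨n, hn⟩, rfl⟩)
    · exact ⟨o1, h0, rfl⟩
    · refine ⟨⟨y, subset_closure (Or.inr ⟨y, ⟨n, hn⟩, rfl⟩)⟩, ?_, rfl⟩
      have := h (some ⟨y, subset_closure (Or.inr ⟨y, ⟨n, hn⟩, rfl⟩)⟩)
      change (tag y).elim _ _ * (x _ - x o1) = 0 at this
      rw [h0, sub_zero] at this
      exact (mul_eq_zero.1 this).resolve_left (by
        rw [hn]; change 1 / ((n : ℝ) + 1) ≠ 0; positivity)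
  obtain ⟨w, h1, h2⟩ := this
  exact (Subtype.ext h2 : w = z) ▸ h1

end Pool.Agent.H.MP_15aca8
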