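import Mathlib

set_option autoImplicit false
open Set Filter Topology Function

namespace Pool.Agent.H.MP_15aca8

variable {X Γ : Type} [NormedAddCommGroup X] [NormedSpace ℝ X] (f : Γ → X →L[ℝ] ℝ)

noncomputable def Q (n : ℕ) (x : X) : ℝ :=
  sSup {v | ∃ F : Finset Γ, F.card ≤ n ∧ v = ∑ γ ∈ F, f γ x ^ 2}

theorem Q_le {n : ℕ} {x : X} {b : ℝ} (h : ∀ F : Finset Γ, F.card ≤ n → ∑ γ ∈ F, f γ x ^ 2 ≤ b) :
    Q f n x ≤ b :=
  csSup_le ⟨_, ∅, by simp, rfl⟩ (by rintro _ ⟨F, h1, rfl⟩; exact h F h1)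

theorem Q_opt (x : X) (A : Finset Γ) {δ : ℝ} (h0 : 0 ≤ δ) (h1 : ∀ γ ∈ A, δ ≤ |f γ x|)
    (h2 : ∀ γ ∉ A, |f γ x| ≤ δ) : Q f A.card x ≤ ∑ γ ∈ A, f γ x ^ 2 := by
  classical
  refine Q_le f fun F hF => ?_
  rw [← Finset.sum_inter_add_sum_sdiff F A, ← Finset.sum_inter_add_sum_sdiff A F, Finset.inter_comm]
  have a1 := Finset.sum_le_card_nsmul (F \ A) (fun γ => f γ x ^ 2) (δ ^ 2) fun γ hγ =>
    sq_le_sq' (abs_le.1 (h2 γ (Finset.mem_sdiff.1 hγ).2)).1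
      (abs_le.1 (h2 γ (Finset.mem_sdiff.1 hγ).2)).2
  have a2 := Finset.card_nsmul_le_sum (A \ F) (fun γ => f γ x ^ 2) (δ ^ 2) fun γ hγ => by
    rw [← sq_abs (f γ x)]
    exact pow_le_pow_left₀ h0 (h1 γ (Finset.mem_sdiff.1 hγ).1) 2
  have a3 : ((F \ A).card : ℝ) ≤ (A \ F).card := by
    exact_mod_cast Finset.card_sdiff_le_card_sdiff_iff.2 hF
  rw [nsmul_eq_mul] at a1 a2
  nlinarith [sq_nonneg δ]

variable {f} (hb : ∀ γ x, |f γ x| ≤ 2 * ‖x‖)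
include hb

theorem sum_bd {n : ℕ} (x : X) {F : Finset Γ} (hF : F.card ≤ n) :
    ∑ γ ∈ F, f γ x ^ 2 ≤ n * (4 * ‖x‖ ^ 2) := by
  have a1 := Finset.sum_le_card_nsmul F (fun γ => f γ x ^ 2) ((2 * ‖x‖) ^ 2) fun γ _ =>
    sq_le_sq' (abs_le.1 (hb γ x)).1 (abs_le.1 (hb γ x)).2
  rw [nsmul_eq_mul] at a1
  have : (F.card : ℝ) ≤ n := by exact_mod_cast hF
  nlinarith [sq_nonneg ‖x‖]

theorem le_Q {n : ℕ} (x : X) {F : Finset Γ} (hF : F.card ≤ n) : ∑ γ ∈ F, f γ x ^ 2 ≤ Q f n x :=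
  le_csSup ⟨_, by rintro _ ⟨F, h1, rfl⟩; exact sum_bd hb x h1⟩ ⟨F, hF, rfl⟩

theorem Q_add {s t : ℝ} (hs : 0 ≤ s) (ht : 0 ≤ t) (h : ∀ a b : ℝ, (a + b) ^ 2 ≤ s * a ^ 2 + t * b ^ 2)
    (n : ℕ) (x y : X) : Q f n (x + y) ≤ s * Q f n x + t * Q f n y := by
  refine Q_le f fun F hF => le_trans ?_ (add_le_add (mul_le_mul_of_nonneg_left (le_Q hb x hF) hs)
    (mul_le_mul_of_nonneg_left (le_Q hb y hF) ht))
  rw [Finset.mul_sum, Finset.mul_sum, ← Finset.sum_add_distrib]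
  exact Finset.sum_le_sum fun γ _ => by rw [map_add]; exact h _ _

theorem Q_smul (n : ℕ) (c : ℝ) (x : X) : Q f n (c • x) ≤ c ^ 2 * Q f n x := by
  refine Q_le f fun F hF => le_trans ?_ (mul_le_mul_of_nonneg_left (le_Q hb x hF) (sq_nonneg c))
  rw [Finset.mul_sum]
  exact Finset.sum_le_sum fun γ _ => by rw [map_smul, smul_eq_mul, mul_pow]

theorem Q_key (hf : ∀ x, ∀ ε > 0, {γ | ε ≤ |f γ x|}.Finite) {x y : X}
    (h : ∀ n, 2 * Q f n x + 2 * Q f n y ≤ Q f n (x + y)) (γ0 : Γ) : f γ0 x = f γ0 y := by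
  classical
  have k : ∀ (A : Finset Γ) (δ : ℝ), 0 ≤ δ → (∀ γ ∈ A, δ ≤ |f γ (x + y)|) →
      (∀ γ ∉ A, |f γ (x + y)| ≤ δ) → (∀ γ ∈ A, f γ x = f γ y) ∧
        ∀ B : Finset Γ, B.card ≤ A.card → ∑ γ ∈ B, f γ x ^ 2 ≤ ∑ γ ∈ A, f γ x ^ 2 := by
    intro A δ h0 h1 h2
    have a1 := (h _).trans (Q_opt f _ A h0 h1 h2)
    have a2 : ∑ γ ∈ A, f γ (x + y) ^ 2 + ∑ γ ∈ A, (f γ x - f γ y) ^ 2 =
        2 * ∑ γ ∈ A, f γ x ^ 2 + 2 * ∑ γ ∈ A, f γ y ^ 2 := by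
      rw [Finset.mul_sum, Finset.mul_sum, ← Finset.sum_add_distrib, ← Finset.sum_add_distrib]
      exact Finset.sum_congr rfl fun γ _ => by rw [map_add]; ring
    have a3 := le_Q hb x (le_refl A.card)
    have a4 := le_Q hb y (le_refl A.card)
    have a5 : 0 ≤ ∑ γ ∈ A, (f γ x - f γ y) ^ 2 := Finset.sum_nonneg fun _ _ => sq_nonneg _
    refine ⟨fun γ hγ => ?_, fun B hB => by linarith [le_Q hb x hB]⟩
    have := (Finset.sum_eq_zero_iff_of_nonneg fun _ _ => sq_nonneg _).1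
      (le_antisymm (by linarith) a5) γ hγ
    exact sub_eq_zero.1 (pow_eq_zero_iff two_ne_zero |>.1 this)
  have k2 : ∀ δ : ℝ, ∀ h0 : 0 < δ, _ := fun δ h0 => k (hf (x + y) δ h0).toFinset δ h0.le
    (fun γ hγ => by simpa using hγ) fun γ hγ => le_of_lt (by simpa using hγ)
  by_cases e : f γ0 (x + y) = 0
  swap
  · exact (k2 _ (abs_pos.2 e)).1 γ0 (by simp)
  by_contra hne
  have u0 : 0 < |f γ0 x| := abs_pos.2 fun a => hne (by
    rw [map_add, a, zero_add] at e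
    rw [a, e])
  by_cases c : ∃ γ, f γ (x + y) ≠ 0 ∧ |f γ (x + y)| < 2 * |f γ0 x|
  · obtain ⟨γ, c1, c2⟩ := c
    obtain ⟨d1, d2⟩ := k2 _ (abs_pos.2 c1)
    have m1 : γ ∈ (hf (x + y) _ (abs_pos.2 c1)).toFinset := by simp
    have m2 : γ0 ∉ (hf (x + y) _ (abs_pos.2 c1)).toFinset := by
      rw [Finite.mem_toFinset, mem_ofPred_eq, e, abs_zero, not_le]
      exact abs_pos.2 c1
    have := d2 (insert γ0 ((hf (x + y) _ (abs_pos.2 c1)).toFinset.erase γ)) (by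
      rw [Finset.card_insert_of_notMem fun a => m2 (Finset.mem_of_mem_erase a),
        Finset.card_erase_add_one m1])
    rw [Finset.sum_insert fun a => m2 (Finset.mem_of_mem_erase a),
      ← Finset.add_sum_erase _ _ m1] at this
    rw [map_add, ← d1 γ m1, ← two_mul, abs_mul, abs_two] at c2
    have := sq_lt_sq.2 (show |f γ x| < |f γ0 x| by linarith)
    linarith
  · push Not at c
    refine hne ((k (insert γ0 (hf (x + y) _ (mul_pos two_pos u0)).toFinset) 0 le_rfl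
      (fun _ _ => abs_nonneg _) fun γ hγ => ?_).1 γ0 (Finset.mem_insert_self _ _))
    by_contra a
    exact hγ (Finset.mem_insert_of_mem (by
      rw [Finite.mem_toFinset]
      exact c γ (abs_pos.1 (not_le.1 a))))

theorem day (hf : ∀ x, ∀ ε > 0, {γ | ε ≤ |f γ x|}.Finite) (hi : ∀ x, (∀ γ, f γ x = 0) → x = 0) :
    ∃ N : X → ℝ, (∀ x y, N (x + y) ≤ N x + N y) ∧ (∀ (a : ℝ) x, N (a • x) = |a| * N x) ∧
      (∃ c C : ℝ, 0 < c ∧ 0 < C ∧ ∀ x, c * ‖x‖ ≤ N x ∧ N x ≤ C * ‖x‖) ∧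
      ∀ x y, N x = 1 → N y = 1 → x ≠ y → N (x + y) < 2 := by
  obtain ⟨w, hw⟩ : ∃ w : ℕ → ℝ, ∀ n, w n = (1 / 2) ^ n / (n + 1) := ⟨_, fun _ => rfl⟩
  have w0 : ∀ n, 0 < w n := fun n => by rw [hw]; positivity
  have q0 : ∀ n x, 0 ≤ w n * Q f n x := fun n x =>
    mul_nonneg (w0 n).le (by simpa using le_Q hb x (F := ∅) (Nat.zero_le n))
  have q1 : ∀ n x, w n * Q f n x ≤ (1 / 2) ^ n * (4 * ‖x‖ ^ 2) := fun n x => by
    refine (mul_le_mul_of_nonneg_left (Q_le f fun F hF => sum_bd hb x hF) (w0 n).le).trans ?_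
    rw [hw, div_mul_eq_mul_div, div_le_iff₀ (by positivity)]
    have : (0 : ℝ) ≤ (1 / 2) ^ n * (4 * ‖x‖ ^ 2) := by positivity
    nlinarith
  have qs : ∀ x, Summable fun n => w n * Q f n x := fun x =>
    (summable_geometric_two.mul_right _).of_nonneg_of_le (q0 · x) (q1 · x)
  obtain ⟨Φ, hΦ⟩ : ∃ Φ : X → ℝ, ∀ x, Φ x = ‖x‖ ^ 2 + ∑' n, w n * Q f n x := ⟨_, fun _ => rfl⟩
  have p1 : ∀ x, ‖x‖ ^ 2 ≤ Φ x := fun x => by
    rw [hΦ]
    exact le_add_of_nonneg_right (tsum_nonneg (q0 · x))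
  have p0 : ∀ x, 0 ≤ Φ x := fun x => (sq_nonneg _).trans (p1 x)
  have p2 : ∀ x, Φ x ≤ (3 * ‖x‖) ^ 2 := fun x => by
    have := (qs x).tsum_le_tsum (q1 · x) (summable_geometric_two.mul_right _)
    rw [tsum_mul_right, tsum_geometric_two] at this
    rw [hΦ]
    linarith
  have nn : ∀ s t : ℝ, (∀ a b : ℝ, (a + b) ^ 2 ≤ s * a ^ 2 + t * b ^ 2) → ∀ x y : X,
      ‖x + y‖ ^ 2 ≤ s * ‖x‖ ^ 2 + t * ‖y‖ ^ 2 := fun s t h x y =>
    (pow_le_pow_left₀ (norm_nonneg _) (norm_add_le x y) 2).trans (h _ _)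
  have ee : ∀ (s t : ℝ) x y, ∑' n, (s * (w n * Q f n x) + t * (w n * Q f n y)) =
      s * ∑' n, w n * Q f n x + t * ∑' n, w n * Q f n y := fun s t x y => by
    rw [((qs x).mul_left s).tsum_add ((qs y).mul_left t), tsum_mul_left, tsum_mul_left]
  have le1 : ∀ s t : ℝ, 0 ≤ s → 0 ≤ t → (∀ a b : ℝ, (a + b) ^ 2 ≤ s * a ^ 2 + t * b ^ 2) →
      ∀ x y n, w n * Q f n (x + y) ≤ s * (w n * Q f n x) + t * (w n * Q f n y) :=
    fun s t hs ht h x y n => by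
      nlinarith [mul_le_mul_of_nonneg_left (Q_add hb hs ht h n x y) (w0 n).le]
  have p3 : ∀ s t : ℝ, 0 ≤ s → 0 ≤ t → (∀ a b : ℝ, (a + b) ^ 2 ≤ s * a ^ 2 + t * b ^ 2) →
      ∀ x y, Φ (x + y) ≤ s * Φ x + t * Φ y := fun s t hs ht h x y => by
    have := (qs (x + y)).tsum_le_tsum (le1 s t hs ht h x y)
      (((qs x).mul_left s).add ((qs y).mul_left t))
    rw [ee] at this
    rw [hΦ, hΦ, hΦ]
    linarith [nn s t h x y]
  have p4 : ∀ (c : ℝ) x, Φ (c • x) ≤ c ^ 2 * Φ x := fun c x => by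
    have := (qs (c • x)).tsum_le_tsum (g := fun n => c ^ 2 * (w n * Q f n x)) (fun n => by
      nlinarith [mul_le_mul_of_nonneg_left (Q_smul hb n c x) (w0 n).le]) ((qs x).mul_left _)
    rw [tsum_mul_left] at this
    rw [hΦ, hΦ, norm_smul, mul_pow, Real.norm_eq_abs, sq_abs]
    linarith
  have z0 : ∀ x, √(Φ x) = 0 → x = 0 := fun x h => by
    have := p1 x
    rw [(Real.sqrt_eq_zero (p0 x)).1 h] at this
    exact norm_eq_zero.1 (pow_eq_zero_iff two_ne_zero |>.1 (le_antisymm this (sq_nonneg _)))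
  have two : ∀ a b : ℝ, (a + b) ^ 2 ≤ 2 * a ^ 2 + 2 * b ^ 2 := fun a b => by
    nlinarith [sq_nonneg (a - b)]
  refine ⟨fun x => √(Φ x), fun x y => ?_, fun a x => ?_, ⟨1, 3, one_pos, three_pos, fun x =>
    ⟨by rw [one_mul]; exact Real.le_sqrt_of_sq_le (p1 x),
      Real.sqrt_le_iff.2 ⟨by positivity, p2 x⟩⟩⟩, fun x y hx hy hne => ?_⟩
  · rcases (Real.sqrt_nonneg (Φ x)).eq_or_lt with a | a
    · simp [z0 x a.symm]
    rcases (Real.sqrt_nonneg (Φ y)).eq_or_lt with b | b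
    · simp [z0 y b.symm]
    refine Real.sqrt_le_iff.2 ⟨by positivity, (p3 (1 + √(Φ y) / √(Φ x)) (1 + √(Φ x) / √(Φ y))
      (by positivity) (by positivity) (fun u v => ?_) x y).trans_eq ?_⟩
    · have : (1 + √(Φ y) / √(Φ x)) * u ^ 2 + (1 + √(Φ x) / √(Φ y)) * v ^ 2 - (u + v) ^ 2 =
          (√(Φ y) * u - √(Φ x) * v) ^ 2 / (√(Φ x) * √(Φ y)) := by
        field_simp
        ring
      have h2 : 0 ≤ (√(Φ y) * u - √(Φ x) * v) ^ 2 / (√(Φ x) * √(Φ y)) := by positivity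
      linarith
    · have e1 := Real.sq_sqrt (p0 x)
      have e2 := Real.sq_sqrt (p0 y)
      simp only
      generalize √(Φ x) = s at *
      generalize √(Φ y) = t at *
      rw [← e1, ← e2]
      field_simp
      ring
  · have : Φ (a • x) = a ^ 2 * Φ x := by
      refine le_antisymm (p4 a x) ?_
      rcases eq_or_ne a 0 with rfl | ha
      · simpa using p0 0
      · have := mul_le_mul_of_nonneg_left (p4 a⁻¹ (a • x)) (sq_nonneg a)
        rwa [inv_smul_smul₀ ha, ← mul_assoc, ← mul_pow, mul_inv_cancel₀ ha, one_pow,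
          one_mul] at this
    simp only
    rw [this, Real.sqrt_mul (sq_nonneg a), Real.sqrt_sq_eq_abs]
  · have h1 : ¬ ∀ n, 2 * Q f n x + 2 * Q f n y ≤ Q f n (x + y) := fun h =>
      hne (sub_eq_zero.1 (hi _ fun γ => by rw [map_sub, Q_key hb hf h γ, sub_self]))
    push Not at h1
    obtain ⟨n, hn⟩ := h1
    have := (qs (x + y)).tsum_lt_tsum (i := n) (le1 2 2 zero_le_two zero_le_two two x y)
      (by nlinarith [mul_lt_mul_of_pos_left hn (w0 n)])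
      (((qs x).mul_left 2).add ((qs y).mul_left 2))
    rw [ee] at this
    have e1 := Real.sqrt_eq_one.1 hx
    have e2 := Real.sqrt_eq_one.1 hy
    refine (Real.sqrt_lt' two_pos).2 ?_
    rw [hΦ] at e1 e2 ⊢
    linarith [nn 2 2 two x y]

end Pool.Agent.H.MP_15aca8
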