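import Pool.Agent.H.MP_15aca8.E

set_option autoImplicit false
open Set Filter Topology Function

namespace Pool.Agent.H.MP_15aca8

section
variable {K L : Type} [TopologicalSpace K] (Λ : Lad K L)

noncomputable def Lad.gm (σ : ℕ → L) (n : ℕ) : C(K, ℝ) :=
  Λ.g σ (fun k => if Λ.side (σ k) = false then 1 else 1 / 2) n

theorem Lad.gm_congr {σ τ : ℕ → L} {n : ℕ} (h : ∀ k < n, σ k = τ k) : Λ.gm σ n = Λ.gm τ n :=
  Λ.g_congr fun k hk => ⟨h k hk, by rw [h k hk]⟩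

theorem Lad.gm_succ (σ : ℕ → L) (n : ℕ) : Λ.gm σ (n + 1) =
    Λ.gm σ n + (if Λ.side (σ n) = false then (1 : ℝ) else 1 / 2) • ind (Λ.piece σ n) :=
  Finset.sum_range_succ _ _

theorem Lad.gm_eq (σ : ℕ → L) (n : ℕ) : ind (Λ.V σ false 0) + (1 / 2 : ℝ) • ind (Λ.V σ true 0) =
    Λ.gm σ n + (ind (Λ.V σ false n) + (1 / 2 : ℝ) • ind (Λ.V σ true n)) := by
  induction n with
  | zero => simp [Lad.gm, Lad.g]
  | succ n ih =>
    rw [ih, Λ.gm_succ, Λ.I_succ σ false n, Λ.I_succ σ true n]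
    cases Λ.side (σ n) <;> simp only [if_true, if_false, Bool.false_eq_true, Bool.true_eq_false] <;>
      module

variable [CompactSpace K] {p : Seminorm ℝ C(K, ℝ)} {C : ℝ} (hp : ∀ x, p x ≤ C * ‖x‖) (hC : 0 ≤ C)
include hp hC

theorem Lad.far_step (σ : ℕ → L) (n : ℕ) {W : Set K} (w1 : IsClopen W) (w2 : W ⊆ Λ.cone σ n)
    (j : Bool) (u : C(K, ℝ)) : ∃ τ : ℕ → L, (∀ k < n, τ k = σ k) ∧ Λ.side (τ n) = j ∧
      Λ.piece τ n = W ∧ ∀ y, Sp (Λ.cone τ (n + 1)) y → p u ≤ p (u + y) := by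
  obtain ⟨l, l1, l2, l3⟩ := Λ.real σ n W j w1 w2
  obtain ⟨b, hb⟩ : ∃ b, b ∉ _ := by
    by_contra h
    push Not at h
    exact Cardinal.not_countable_real ((l3.union (far_count hp hC _ l1 u)).mono fun b _ => h b)
  simp only [mem_union, mem_ofPred_eq, not_or, not_not, not_exists, not_and, not_lt] at hb
  exact ⟨update σ n (l b), fun k hk => update_of_ne hk.ne _ _, by simp [l2], hb.1, hb.2⟩

theorem Lad.mlur [Nonempty L] {a : ℝ}
    (hl : ∀ σ n, ∃ W, IsClopen W ∧ W ⊆ Λ.cone σ n ∧ 2 * a ≤ p (ind W)) :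
    ∃ x, ∀ i : ℕ, ∃ y, a ≤ p y ∧ p (x + y) ≤ p x + 1 / (i + 1) ∧ p (x - y) ≤ p x + 1 / (i + 1) := by
  have st : ∀ (i : ℕ) (σ : ℕ → L), ∃ τ : ℕ → L, (∀ k < 2 * i, τ k = σ k) ∧
      Λ.side (τ (2 * i)) = false ∧ Λ.side (τ (2 * i + 1)) = true ∧
      2 * a ≤ p (ind (Λ.piece τ (2 * i + 1))) ∧ ∀ y, Sp (Λ.cone τ (2 * i + 1)) y →
        Λ.F p τ (2 * i) (Λ.gm τ (2 * i)) 1 - 1 / (i + 1) ≤ p (Λ.gm τ (2 * i + 1) + y) := by
    intro i σ
    obtain ⟨W, w1, w2, w3⟩ := Λ.F_near p σ (2 * i) (Λ.gm σ (2 * i)) 1 (ε := 1 / (i + 1))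
      (by positivity)
    obtain ⟨τ, t1, t2, t3, t4⟩ := Λ.far_step hp hC σ _ w1 w2 false
      (Λ.gm σ (2 * i) + (1 : ℝ) • ind W)
    obtain ⟨U, u1, u2, u3⟩ := hl τ (2 * i + 1)
    obtain ⟨υ, v1, v2, v3, -⟩ := Λ.far_step hp hC τ _ u1 u2 true 0
    have e : ∀ k < 2 * i, υ k = σ k := fun k hk => (v1 k (hk.trans (Nat.lt_succ_self _))).trans
      (t1 k hk)
    refine ⟨υ, e, by rw [v1 _ (Nat.lt_succ_self _), t2], v2, by rwa [v3], fun y hy => ?_⟩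
    rw [Λ.gm_congr v1, Λ.gm_succ, t2, t3, if_pos rfl, Λ.gm_congr t1, Λ.gm_congr e, Λ.F_congr p e]
    exact w3.trans (t4 y (by rwa [← Λ.cone_congr _ _ _ v1]))
  choose f f1 f2 f3 f4 f5 using st
  obtain ⟨z, e1⟩ : ∃ z : ℕ → ℕ → L, ∀ i, z (i + 1) = f i (z i) :=
    ⟨fun i => Nat.rec (Classical.arbitrary _) f i, fun _ => rfl⟩
  obtain ⟨σ, ht⟩ := lim_seq (fun i => 2 * i) z (fun i => by omega) fun i k hk => e1 i ▸ f1 i _ k hk
  refine ⟨ind (Λ.V σ false 0) + (1 / 2 : ℝ) • ind (Λ.V σ true 0), fun i => ?_⟩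
  have ag : ∀ k < 2 * (i + 1), f i (z i) k = σ k := e1 i ▸ ht (i + 1)
  have g2 := f3 i (z i)
  have g3 := f4 i (z i)
  have g4 := f5 i (z i)
  rw [ag _ (by omega)] at g2
  rw [Λ.piece_congr _ σ _ fun k hk => ag k (by omega)] at g3
  rw [Λ.cone_congr _ σ _ fun k hk => ag k (by omega), Λ.gm_congr fun k hk => ag k (by omega),
    Λ.gm_congr (n := 2 * i + 1) fun k hk => ag k (by omega),
    Λ.F_congr p fun k hk => ag k (by omega)] at g4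
  have g5 := g4 _ ((sp_ind (Λ.V_sub σ false _)).add ((sp_ind (Λ.V_sub σ true _)).smul (1 / 2)))
  rw [← Λ.gm_eq] at g5
  have hd : Λ.piece σ (2 * i + 1) ⊆ Λ.V σ true (2 * i) := fun w hw =>
    (Λ.V_succ _ _ _ _).2 (Or.inr ((Λ.V_succ _ _ _ _).2 (Or.inl ⟨g2, hw⟩)))
  have cA := Λ.V_clopen σ false (2 * i)
  have cB := Λ.V_clopen σ true (2 * i)
  have cD := Λ.piece_clopen σ (2 * i + 1)
  have dj := Λ.V_disj σ (2 * i)
  have key : ∀ S T, IsClopen S → IsClopen T → S ⊆ Λ.V σ true (2 * i) → T ⊆ Λ.V σ true (2 * i) →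
      p (Λ.gm σ (2 * i) + (ind (Λ.V σ false (2 * i)) + (1 / 2 : ℝ) • (ind S + ind T))) ≤
        Λ.F p σ (2 * i) (Λ.gm σ (2 * i)) 1 := fun S T hS hT sS sT => by
    have b1 := Λ.le_F hp hC (Λ.gm σ (2 * i)) 1 (cA.union hS)
      (union_subset (Λ.V_sub _ _ _) (sS.trans (Λ.V_sub _ _ _)))
    have b2 := Λ.le_F hp hC (Λ.gm σ (2 * i)) 1 (cA.union hT)
      (union_subset (Λ.V_sub _ _ _) (sT.trans (Λ.V_sub _ _ _)))
    rw [ind_union cA hS (dj.mono_right sS)] at b1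
    rw [ind_union cA hT (dj.mono_right sT)] at b2
    have b3 := map_add_le_add p
      ((1 / 2 : ℝ) • (Λ.gm σ (2 * i) + (1 : ℝ) • (ind (Λ.V σ false (2 * i)) + ind S)))
      ((1 / 2 : ℝ) • (Λ.gm σ (2 * i) + (1 : ℝ) • (ind (Λ.V σ false (2 * i)) + ind T)))
    rw [map_smul_eq_mul, map_smul_eq_mul, Real.norm_of_nonneg (by norm_num)] at b3
    refine le_trans (le_of_eq (congrArg p (by module))) (b3.trans (by linarith))
  refine ⟨(1 / 2 : ℝ) • ind (Λ.piece σ (2 * i + 1)), ?_, ?_, ?_⟩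
  · rw [map_smul_eq_mul, Real.norm_of_nonneg (by norm_num)]
    linarith
  · have := key _ _ cB cD subset_rfl hd
    refine le_trans (le_of_eq (congrArg p ?_)) (this.trans (by linarith))
    rw [Λ.gm_eq σ (2 * i)]
    module
  · have := key _ _ (cB.diff cD) isClopen_empty sdiff_subset (empty_subset _)
    refine le_trans (le_of_eq (congrArg p ?_)) (this.trans (by linarith))
    have e := ind_union (cB.diff cD) cD disjoint_sdiff_left
    rw [sdiff_union_of_subset hd] at e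
    rw [Λ.gm_eq σ (2 * i), ind_empty, e]
    module

end

theorem nomlur (q : Seminorm ℝ C(K1, ℝ)) {c C : ℝ} (hc : 0 < c) (hC : 0 < C)
    (h3 : ∀ f, c * ‖f‖ ≤ q f ∧ q f ≤ C * ‖f‖) : ∃ x, ∀ i : ℕ, ∃ y, c / 2 ≤ q y ∧
      q (x + y) ≤ q x + 1 / (i + 1) ∧ q (x - y) ≤ q x + 1 / (i + 1) := by
  let R : C(KK, ℝ) →L[ℝ] C(K1, ℝ) := LinearMap.mkContinuous
    { toFun := fun f => f.restrict K1
      map_add' := fun _ _ => rfl
      map_smul' := fun _ _ => rfl } 1 fun f => by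
    rw [one_mul]
    exact (ContinuousMap.norm_le _ (norm_nonneg _)).2 fun k => f.norm_coe_le_norm k.1
  have hR : ∀ f, ‖R f‖ ≤ ‖f‖ := fun f =>
    (ContinuousMap.norm_le _ (norm_nonneg _)).2 fun k => f.norm_coe_le_norm k.1
  let p : Seminorm ℝ C(KK, ℝ) := q.comp R.toLinearMap
  have hp : ∀ x, p x ≤ C * ‖x‖ := fun x => (h3 _).2.trans
    (mul_le_mul_of_nonneg_left (hR x) hC.le)
  obtain ⟨x, x1⟩ := lad.mlur hp hC.le (a := c / 2) fun σ n => by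
    obtain ⟨y, y0, y1, y2⟩ := iso_D σ n
    refine ⟨_, y1, y2, le_trans ?_ (h3 _).1⟩
    have a := (R (ind {(y : KK)})).norm_coe_le_norm
      ⟨y, subset_closure (Or.inr ⟨y, ⟨n, y0⟩, rfl⟩)⟩
    change ‖ind {(y : KK)} (y : KK)‖ ≤ _ at a
    rw [ind_mem y1 (mem_singleton _), norm_one] at a
    change _ ≤ c * ‖R (ind {(y : KK)})‖
    nlinarith
  refine ⟨R x, fun i => ?_⟩
  obtain ⟨y, y1, y2, y3⟩ := x1 i
  exact ⟨R y, y1, by rw [← map_add]; exact y2, by rw [← map_sub]; exact y3⟩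

end Pool.Agent.H.MP_15aca8
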